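import Pool.Agent.Lib_helper98.HK.C1

/-! LSP3, part S: the constant of the diagonal terms. -/

set_option autoImplicit false

namespace Pool.Agent.LSP

open MeasureTheory

/-- the constant of the diagonal terms (`-log (4 π²)` for the Cauchy weight) -/
noncomputable def cR (ρ : ℝ → ℝ) : ℝ :=
  Real.pi * Cl ρ + 2 * Real.pi * (∫ u in Set.Ioi (0 : ℝ), kk ρ u * Real.log u) +
    2 * Real.pi * Real.eulerMascheroniConstant * Cr ρ

end Pool.Agent.LSP
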