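import Pool.Agent.Lib_helper98.HK.C2
import Pool.Agent.Lib_helper71.LSPM.KHD
import Pool.Agent.Lib_helper58.Planch

/-! LSP3, part S: the sum over the multiples of a small height. -/

set_option autoImplicit false

namespace Pool.Agent.LSP

open Pool.Agent.LEV Pool.Agent.LVB Pool.Agent.KSL
open Pool.Agent.FG61 (mu phi cc ff AA Lam)
open Complex MeasureTheory Filter Topology
open scoped ENNReal

theorem sb_kh_fourier (ρ : ℝ → ℝ) (u : ℝ) :
    kh ρ u = FourierTransform.fourier (fun t : ℝ => (ρ t : ℂ) * (1 - (t : ℂ) * I)) u := by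
  rw [Real.fourier_real_eq_integral_exp_smul]
  unfold kh
  refine integral_congr_ae (Eventually.of_forall fun t => ?_)
  simp only [smul_eq_mul]
  rw [mul_comm (cexp _)]
  congr 2
  push_cast
  ring

/-- Plancherel -/
theorem sb_kh_plancherel {T : ℝ} {ρ : ℝ → ℝ} (hρ : Ker T ρ) :
    Integrable (fun u => ‖kh ρ u‖ ^ 2) ∧ ∫ u, ‖kh ρ u‖ ^ 2 = Cr ρ := by
  set f : ℝ → ℂ := fun t => (ρ t : ℂ) * (1 - (t : ℂ) * I) with hf
  have hc := KHD_cont hρ
  have hcs := KHD_supp hρ
  have h1 : Integrable f := hc.integrable_of_hasCompactSupport hcs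
  have h2 : MemLp f 2 := hc.memLp_of_hasCompactSupport hcs
  have hP := Pool.Agent.H58.plancherel f h1 h2
  have hkc : Continuous (fun u => kh ρ u) := by
    have : (fun u => kh ρ u) = FourierTransform.fourier f := by
      ext u
      exact sb_kh_fourier ρ u
    rw [this]
    exact VectorFourier.fourierIntegral_continuous Real.continuous_fourierChar
      (by exact (innerSL ℝ (E := ℝ)).continuous₂) h1
  have hn : ∀ t, ‖f t‖ ^ 2 = (1 + t ^ 2) * ρ t ^ 2 := by
    intro t
    rw [hf]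
    simp only
    rw [norm_mul, mul_pow, Complex.norm_real, Real.norm_eq_abs, sq_abs, ← Complex.normSq_eq_norm_sq]
    have : Complex.normSq (1 - (t : ℂ) * I) = 1 + t ^ 2 := by
      rw [Complex.normSq_apply]
      simp
      ring
    rw [this]
    ring
  have hi2 : Integrable (fun t => ‖f t‖ ^ 2) := by
    refine (hc.norm.pow 2).integrable_of_hasCompactSupport ?_
    refine hcs.norm.mono ?_
    intro t ht
    by_contra hne
    apply ht
    have : ‖f t‖ = 0 := by
      by_contra h0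
      exact hne h0
    show ‖f t‖ ^ 2 = 0
    rw [this]
    norm_num
  have e1 : ∫⁻ t, ‖f t‖ₑ ^ 2 = ENNReal.ofReal (Cr ρ) := by
    have h3 : Cr ρ = ∫ t, ‖f t‖ ^ 2 := by
      unfold Cr
      exact integral_congr_ae (Eventually.of_forall fun t => (hn t).symm)
    rw [h3, ofReal_integral_eq_lintegral_ofReal hi2 (Eventually.of_forall fun t => by positivity)]
    refine lintegral_congr fun t => ?_
    rw [ENNReal.ofReal_pow (norm_nonneg _), ofReal_norm]
  have e2 : ∫⁻ u, ENNReal.ofReal (‖kh ρ u‖ ^ 2) = ENNReal.ofReal (Cr ρ) := by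
    rw [← e1, ← hP]
    refine lintegral_congr fun u => ?_
    rw [ENNReal.ofReal_pow (norm_nonneg _), ofReal_norm, sb_kh_fourier]
  have hCr : 0 ≤ Cr ρ := by
    have := cr_lower hρ
    have hp : 0 < 1 / Real.pi := by positivity
    linarith
  have hint : Integrable (fun u => ‖kh ρ u‖ ^ 2) := by
    refine ⟨(hkc.norm.pow 2).aestronglyMeasurable, ?_⟩
    rw [hasFiniteIntegral_iff_ofReal (Eventually.of_forall fun u => by positivity), e2]
    exact ENNReal.ofReal_lt_top
  refine ⟨hint, ?_⟩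
  rw [integral_eq_lintegral_of_nonneg_ae (Eventually.of_forall fun u => by positivity)
    hint.aestronglyMeasurable, e2, ENNReal.toReal_ofReal hCr]


/-- the kernel is integrable -/
theorem kk_total {T : ℝ} {ρ : ℝ → ℝ} (hρ : KerL T ρ) :
    IntegrableOn (kk ρ) (Set.Ioi 0) ∧ ∫ u in Set.Ioi (0 : ℝ), kk ρ u = Cr ρ := by
  obtain ⟨hi, hP⟩ := sb_kh_plancherel hρ.toKer
  have h1 : IntegrableOn (fun u => ‖kh ρ u‖ ^ 2) (Set.Ioi 0) := hi.integrableOn
  have h2 : IntegrableOn (fun u => ‖kh ρ (-u)‖ ^ 2) (Set.Ioi 0) := (hi.comp_neg).integrableOn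
  refine ⟨h1.add h2, ?_⟩
  have h3 : ∫ u in Set.Ioi (0 : ℝ), kk ρ u =
      (∫ u in Set.Ioi (0 : ℝ), ‖kh ρ u‖ ^ 2) + ∫ u in Set.Ioi (0 : ℝ), ‖kh ρ (-u)‖ ^ 2 := by
    unfold kk
    exact integral_add h1 h2
  rw [h3, integral_comp_neg_Ioi 0 (fun u => ‖kh ρ u‖ ^ 2), neg_zero, ← hP, add_comm]
  exact intervalIntegral.integral_Iic_add_Ioi hi.integrableOn hi.integrableOn

/-- the harmonic sum over `k < x` -/
noncomputable def sbJ (x : ℝ) : ℝ := (harmonic (⌈x⌉₊ - 1) : ℝ)

theorem sbJ_sum {t u : ℝ} (ht : 0 < t) :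
    ∑' n : ℕ, (1 / ((n : ℝ) + 1)) * (if ((n : ℝ) + 1) * t < u then (1 : ℝ) else 0) = sbJ (u / t) := by
  unfold sbJ
  have h1 : ∀ n : ℕ, ((n : ℝ) + 1) * t < u ↔ n < ⌈u / t⌉₊ - 1 := by
    intro n
    rw [← lt_div_iff₀ ht, Nat.lt_sub_iff_add_lt, Nat.lt_ceil]
    push_cast
    rfl
  rw [tsum_eq_sum (s := Finset.range (⌈u / t⌉₊ - 1))]
  · unfold harmonic
    push_cast
    refine Finset.sum_congr rfl fun n hn => ?_
    rw [Finset.mem_range] at hn
    rw [if_pos ((h1 n).mpr hn)]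
    simp
  · intro n hn
    rw [Finset.mem_range] at hn
    rw [if_neg (fun h => hn ((h1 n).mp h)), mul_zero]

theorem sbJ_bd {x : ℝ} (hx : 0 < x) : |sbJ x - Real.log x| ≤ 1 + |Real.log x| ∧
    (1 ≤ x → |sbJ x - Real.log x| ≤ 1) := by
  unfold sbJ
  rcases le_or_gt x 1 with h | h
  · have h1 : ⌈x⌉₊ - 1 = 0 := by
      have : ⌈x⌉₊ ≤ 1 := by
        rw [Nat.ceil_le]
        exact_mod_cast h
      omega
    rw [h1]
    simp only [harmonic_zero, Rat.cast_zero, zero_sub, abs_neg]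
    refine ⟨by linarith, fun h2 => ?_⟩
    have : x = 1 := le_antisymm h h2
    rw [this]
    simp
  · have hc1 : 1 < ⌈x⌉₊ := by
      rw [Nat.lt_ceil]
      exact_mod_cast h
    have hc2 : ((⌈x⌉₊ - 1 : ℕ) : ℝ) = ⌈x⌉₊ - 1 := by
      rw [Nat.cast_sub hc1.le]
      simp
    have hlt : ((⌈x⌉₊ - 1 : ℕ) : ℝ) < x := by
      rw [hc2]
      have := Nat.ceil_lt_add_one hx.le
      linarith
    have hle : x ≤ ((⌈x⌉₊ - 1 : ℕ) : ℝ) + 1 := by
      rw [hc2]
      have := Nat.le_ceil x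
      linarith
    have h1 := log_add_one_le_harmonic (⌈x⌉₊ - 1)
    have h2 := harmonic_le_one_add_log (⌈x⌉₊ - 1)
    have h3 : Real.log x ≤ Real.log (((⌈x⌉₊ - 1 : ℕ) : ℝ) + 1) := Real.log_le_log hx hle
    have hpos : (0 : ℝ) < ((⌈x⌉₊ - 1 : ℕ) : ℝ) := by
      rw [hc2]
      have : (1 : ℝ) < ⌈x⌉₊ := by exact_mod_cast hc1
      linarith
    have h4 : Real.log ((⌈x⌉₊ - 1 : ℕ) : ℝ) ≤ Real.log x := Real.log_le_log hpos hlt.le
    have h1' : Real.log (((⌈x⌉₊ - 1 : ℕ) : ℝ) + 1) ≤ (harmonic (⌈x⌉₊ - 1) : ℝ) := by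
      exact_mod_cast h1
    have h5 : |(harmonic (⌈x⌉₊ - 1) : ℝ) - Real.log x| ≤ 1 := by
      rw [abs_le]
      constructor <;> linarith
    exact ⟨h5.trans (by linarith [abs_nonneg (Real.log x)]), fun _ => h5⟩

theorem sbJ_lim : Tendsto (fun x : ℝ => sbJ x - Real.log x) atTop
    (𝓝 Real.eulerMascheroniConstant) := by
  have h1 : Tendsto (fun x : ℝ => ⌈x⌉₊ - 1) atTop atTop :=
    (tendsto_sub_atTop_nat 1).comp tendsto_nat_ceil_atTop
  have h2 := Real.tendsto_harmonic_sub_log.comp h1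
  have h3 : Tendsto (fun x : ℝ => Real.log ((⌈x⌉₊ - 1 : ℕ) : ℝ) - Real.log x) atTop (𝓝 0) := by
    have h4 : Tendsto (fun x : ℝ => Real.log x - Real.log (x - 1)) atTop (𝓝 0) := by
      have h5 := (Real.tendsto_log_comp_add_sub_log 1).comp
        (tendsto_atTop_add_const_right atTop (-1 : ℝ) tendsto_id)
      refine h5.congr fun x => ?_
      simp only [Function.comp, id]
      rw [show x + -1 + 1 = x by ring, show x + -1 = x - 1 by ring]
    rw [tendsto_zero_iff_abs_tendsto_zero]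
    refine squeeze_zero' (Eventually.of_forall fun x => abs_nonneg _) ?_ h4
    filter_upwards [eventually_gt_atTop 1] with x hx
    have hx0 : (0 : ℝ) < x := by linarith
    have hc1 : 1 < ⌈x⌉₊ := by
      rw [Nat.lt_ceil]
      exact_mod_cast hx
    have hc2 : ((⌈x⌉₊ - 1 : ℕ) : ℝ) = ⌈x⌉₊ - 1 := by
      rw [Nat.cast_sub hc1.le]
      simp
    have hlt : ((⌈x⌉₊ - 1 : ℕ) : ℝ) < x := by
      rw [hc2]
      have := Nat.ceil_lt_add_one hx0.le
      linarith
    have hle : x - 1 ≤ ((⌈x⌉₊ - 1 : ℕ) : ℝ) := by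
      rw [hc2]
      have := Nat.le_ceil x
      linarith
    have h6 : Real.log (x - 1) ≤ Real.log ((⌈x⌉₊ - 1 : ℕ) : ℝ) :=
      Real.log_le_log (by linarith) hle
    have h7 : Real.log ((⌈x⌉₊ - 1 : ℕ) : ℝ) ≤ Real.log x :=
      Real.log_le_log (by linarith) hlt.le
    show |Real.log ((⌈x⌉₊ - 1 : ℕ) : ℝ) - Real.log x| ≤ _
    rw [abs_of_nonpos (by linarith)]
    linarith
  have h8 := h2.add h3
  rw [add_zero] at h8
  refine h8.congr fun x => ?_
  simp only [Function.comp]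
  unfold sbJ
  ring

theorem sbJ_mono : Monotone sbJ := by
  intro x y h
  unfold sbJ
  have h1 : ⌈x⌉₊ - 1 ≤ ⌈y⌉₊ - 1 := Nat.sub_le_sub_right (Nat.ceil_mono h) 1
  have h2 : (harmonic (⌈x⌉₊ - 1) : ℝ) = ∑ i ∈ Finset.range (⌈x⌉₊ - 1), ((i : ℝ) + 1)⁻¹ := by
    unfold harmonic
    push_cast
    rfl
  have h3 : (harmonic (⌈y⌉₊ - 1) : ℝ) = ∑ i ∈ Finset.range (⌈y⌉₊ - 1), ((i : ℝ) + 1)⁻¹ := by
    unfold harmonic
    push_cast
    rfl
  rw [h2, h3]
  exact Finset.sum_le_sum_of_subset_of_nonneg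
    (fun i hi => Finset.mem_range.mpr (lt_of_lt_of_le (Finset.mem_range.mp hi) h1))
    (fun i _ _ => by positivity)

theorem sbJ_nonneg (x : ℝ) : 0 ≤ sbJ x := by
  have h := sbJ_mono (le_max_left x 0)
  have h0 : sbJ (min x 0) = 0 := by
    unfold sbJ
    rw [Nat.ceil_eq_zero.mpr (min_le_right x 0)]
    simp
  rw [← h0]
  exact sbJ_mono (min_le_left x 0)

/-- `kk(u) (2 + |log u|)` is integrable -/
theorem kk_log_int {T : ℝ} {ρ : ℝ → ℝ} (hρ : KerL T ρ) :
    IntegrableOn (fun u => kk ρ u * |Real.log u|) (Set.Ioi 0) := by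
  obtain ⟨C, hC, h1, h2⟩ := kk_bd hρ
  have hm : AEStronglyMeasurable (fun u => kk ρ u * |Real.log u|) (volume.restrict (Set.Ioi 0)) :=
    ((kk_cont hρ).measurable.mul
      ((continuous_abs.measurable).comp Real.measurable_log)).aestronglyMeasurable
  have hlog : ∀ u : ℝ, 0 < u → |Real.log u| ≤ 2 * u ^ (-(1 / 2) : ℝ) + 2 * u ^ (1 / 2 : ℝ) := by
    intro u hu
    have e1 : Real.log u ≤ 2 * u ^ (1 / 2 : ℝ) := by
      have := Real.log_le_rpow_div hu.le (show (0 : ℝ) < 1 / 2 by norm_num)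
      linarith
    have e2 : -Real.log u ≤ 2 * u ^ (-(1 / 2) : ℝ) := by
      have := Real.log_le_rpow_div (inv_pos.mpr hu).le (show (0 : ℝ) < 1 / 2 by norm_num)
      rw [Real.log_inv, Real.inv_rpow hu.le, ← Real.rpow_neg hu.le] at this
      linarith
    have p1 : 0 ≤ u ^ (1 / 2 : ℝ) := by positivity
    have p2 : 0 ≤ u ^ (-(1 / 2) : ℝ) := by positivity
    rw [abs_le]
    constructor <;> linarith
  rw [← Set.Ioc_union_Ioi_eq_Ioi (zero_le_one' ℝ)]
  refine IntegrableOn.union ?_ ?_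
  · have hi : IntegrableOn (fun u : ℝ => C * (4 * u ^ (-(1 / 2) : ℝ))) (Set.Ioc 0 1) := by
      have : IntervalIntegrable (fun u : ℝ => u ^ (-(1 / 2) : ℝ)) volume 0 1 :=
        intervalIntegral.intervalIntegrable_rpow' (by norm_num)
      rw [intervalIntegrable_iff_integrableOn_Ioc_of_le zero_le_one] at this
      exact (this.const_mul 4).const_mul C
    refine Integrable.mono' hi (hm.mono_measure (Measure.restrict_mono Set.Ioc_subset_Ioi_self le_rfl)) ?_
    refine (ae_restrict_iff' measurableSet_Ioc).2 (Eventually.of_forall ?_)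
    intro u hu
    rw [Real.norm_of_nonneg (mul_nonneg (kk_nonneg ρ u) (abs_nonneg _))]
    refine mul_le_mul (h1 u) ?_ (abs_nonneg _) hC.le
    refine (hlog u hu.1).trans ?_
    have : u ^ (1 / 2 : ℝ) ≤ u ^ (-(1 / 2) : ℝ) :=
      Real.rpow_le_rpow_of_exponent_ge hu.1 hu.2 (by norm_num)
    linarith
  · have hi : IntegrableOn (fun u : ℝ => C * (4 * u ^ (-(3 / 2) : ℝ))) (Set.Ioi 1) :=
      ((integrableOn_Ioi_rpow_of_lt (by norm_num) one_pos).const_mul 4).const_mul C
    refine Integrable.mono' hi (hm.mono_measure (Measure.restrict_mono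
      (Set.Ioi_subset_Ioi zero_le_one) le_rfl)) ?_
    refine (ae_restrict_iff' measurableSet_Ioi).2 (Eventually.of_forall ?_)
    intro u hu
    have hu1 : (1 : ℝ) < u := hu
    have hu0 : (0 : ℝ) < u := by linarith
    rw [Real.norm_of_nonneg (mul_nonneg (kk_nonneg ρ u) (abs_nonneg _))]
    have e1 : |Real.log u| ≤ 4 * u ^ (1 / 2 : ℝ) := by
      refine (hlog u hu0).trans ?_
      have : u ^ (-(1 / 2) : ℝ) ≤ u ^ (1 / 2 : ℝ) :=
        Real.rpow_le_rpow_of_exponent_le hu1.le (by norm_num)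
      linarith
    have e2 : C / u ^ 2 * (4 * u ^ (1 / 2 : ℝ)) = C * (4 * u ^ (-(3 / 2) : ℝ)) := by
      have : u ^ (-(3 / 2) : ℝ) = u ^ (1 / 2 : ℝ) / u ^ 2 := by
        rw [show (-(3 / 2) : ℝ) = 1 / 2 - 2 by norm_num, Real.rpow_sub hu0]
        norm_num
      rw [this]
      ring
    rw [← e2]
    exact mul_le_mul (h2 u hu0) e1 (abs_nonneg _) (by positivity)

theorem sbJ_log {x : ℝ} (hx : 0 < x) : |sbJ x| ≤ 1 + 2 * |Real.log x| := by
  have h1 := (sbJ_bd hx).1
  have h2 := abs_add_le (sbJ x - Real.log x) (Real.log x)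
  rw [sub_add_cancel] at h2
  linarith

/-- `∑_k Hk(k t) / k` as an integral -/
theorem Kk_int {T : ℝ} {ρ : ℝ → ℝ} (hρ : KerL T ρ) {t : ℝ} (ht : 0 < t) :
    Integrable (fun u => kk ρ u * sbJ (u / t)) (volume.restrict (Set.Ioi 0)) ∧
    Kk ρ t = ∫ u in Set.Ioi (0 : ℝ), kk ρ u * sbJ (u / t) := by
  constructor
  · have hi : Integrable (fun u => kk ρ u * (1 + 2 * |Real.log t|) + 2 * (kk ρ u * |Real.log u|))
        (volume.restrict (Set.Ioi 0)) :=
      ((kk_total hρ).1.mul_const _).add ((kk_log_int hρ).const_mul 2)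
    refine Integrable.mono' hi ?_ ?_
    · exact ((kk_cont hρ).measurable.mul
        (sbJ_mono.measurable.comp (measurable_id.div_const t))).aestronglyMeasurable
    · refine (ae_restrict_iff' measurableSet_Ioi).2 (Eventually.of_forall ?_)
      intro u hu
      have hu0 : (0 : ℝ) < u := hu
      rw [norm_mul, Real.norm_of_nonneg (kk_nonneg ρ u), Real.norm_eq_abs]
      have h1 := sbJ_log (div_pos hu0 ht)
      rw [Real.log_div hu0.ne' ht.ne'] at h1
      have h2 := abs_sub (Real.log u) (Real.log t)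
      have h3 : |sbJ (u / t)| ≤ (1 + 2 * |Real.log t|) + 2 * |Real.log u| := by linarith
      calc kk ρ u * |sbJ (u / t)| ≤ kk ρ u * ((1 + 2 * |Real.log t|) + 2 * |Real.log u|) :=
            mul_le_mul_of_nonneg_left h3 (kk_nonneg ρ u)
        _ = _ := by ring
  obtain ⟨C, hC, hK⟩ := Kk_eta hρ
  have hs := ((hK 1 one_pos le_rfl).1 t ht).1
  set F : ℕ → ℝ → ℝ := fun n u => (1 / ((n : ℝ) + 1)) *
    (Set.Ioi (((n : ℝ) + 1) * t)).indicator (kk ρ) u with hF
  have hFi : ∀ n, Integrable (F n) (volume.restrict (Set.Ioi 0)) := by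
    intro n
    refine Integrable.const_mul ?_ _
    exact ((kk_total hρ).1).indicator measurableSet_Ioi
  have hFint : ∀ n, ∫ u in Set.Ioi (0 : ℝ), F n u = Hk ρ (((n : ℝ) + 1) * t) / ((n : ℝ) + 1) := by
    intro n
    rw [hF]
    simp only
    rw [integral_const_mul, setIntegral_indicator measurableSet_Ioi]
    unfold Hk
    rw [Set.Ioi_inter_Ioi, sup_eq_right.mpr (by positivity)]
    ring
  have hFn : ∀ n u, 0 ≤ F n u := by
    intro n u
    rw [hF]
    exact mul_nonneg (by positivity) (Set.indicator_nonneg (fun u _ => kk_nonneg ρ u) u)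
  have hFnorm : ∀ n, ∫ u in Set.Ioi (0 : ℝ), ‖F n u‖ = Hk ρ (((n : ℝ) + 1) * t) / ((n : ℝ) + 1) := by
    intro n
    rw [← hFint n]
    refine integral_congr_ae (Eventually.of_forall fun u => ?_)
    exact Real.norm_of_nonneg (hFn n u)
  have hsum : Summable (fun n => ∫ u in Set.Ioi (0 : ℝ), ‖F n u‖) := by
    simp only [hFnorm]
    exact hs
  have hpt : ∀ u, ∑' n, F n u = kk ρ u * sbJ (u / t) := by
    intro u
    rw [← sbJ_sum ht, ← tsum_mul_left]
    refine tsum_congr fun n => ?_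
    rw [hF]
    simp only
    by_cases h : ((n : ℝ) + 1) * t < u
    · rw [Set.indicator_of_mem (by exact h), if_pos h]
      ring
    · rw [Set.indicator_of_notMem (by exact h), if_neg h]
      ring
  have h1 := hasSum_integral_of_summable_integral_norm hFi hsum
  have h2 : ∑' n, ∫ u in Set.Ioi (0 : ℝ), F n u = ∫ u in Set.Ioi (0 : ℝ), ∑' n, F n u := h1.tsum_eq
  simp only [hpt, hFint] at h2
  exact h2

/-- the expansion of `Kk` at `0` -/
theorem Kk_lim {T : ℝ} {ρ : ℝ → ℝ} (hρ : KerL T ρ) :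
    Tendsto (fun t => Kk ρ t + Cr ρ * Real.log t) (𝓝[>] 0)
      (𝓝 ((∫ u in Set.Ioi (0 : ℝ), kk ρ u * Real.log u) + Real.eulerMascheroniConstant * Cr ρ)) := by
  have htot := kk_total hρ
  have hlog : IntegrableOn (fun u => kk ρ u * Real.log u) (Set.Ioi 0) := by
    refine Integrable.mono' (kk_log_int hρ) ?_ ?_
    · exact ((kk_cont hρ).measurable.mul Real.measurable_log).aestronglyMeasurable
    · refine Eventually.of_forall fun u => ?_
      rw [norm_mul, Real.norm_of_nonneg (kk_nonneg ρ u), Real.norm_eq_abs]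
  have hrew : ∀ t : ℝ, 0 < t → Kk ρ t + Cr ρ * Real.log t =
      (∫ u in Set.Ioi (0 : ℝ), kk ρ u * Real.log u) +
        ∫ u in Set.Ioi (0 : ℝ), kk ρ u * (sbJ (u / t) - Real.log (u / t)) := by
    intro t ht
    obtain ⟨hi, he⟩ := Kk_int hρ ht
    have h1 : ∫ u in Set.Ioi (0 : ℝ), kk ρ u * (sbJ (u / t) - Real.log (u / t)) =
        ∫ u in Set.Ioi (0 : ℝ), (kk ρ u * sbJ (u / t) - kk ρ u * Real.log u +
          kk ρ u * Real.log t) := by
      refine setIntegral_congr_fun measurableSet_Ioi fun u hu => ?_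
      have hu0 : (0 : ℝ) < u := hu
      show kk ρ u * (sbJ (u / t) - Real.log (u / t)) = _
      rw [Real.log_div hu0.ne' ht.ne']
      ring
    have h2 : ∫ u in Set.Ioi (0 : ℝ), (kk ρ u * sbJ (u / t) - kk ρ u * Real.log u +
          kk ρ u * Real.log t) = (∫ u in Set.Ioi (0 : ℝ), kk ρ u * sbJ (u / t)) -
          (∫ u in Set.Ioi (0 : ℝ), kk ρ u * Real.log u) +
          ∫ u in Set.Ioi (0 : ℝ), kk ρ u * Real.log t := by
      rw [← integral_sub hi hlog]
      exact integral_add (hi.sub hlog) (htot.1.mul_const _)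
    rw [h1, h2, integral_mul_const, htot.2, he]
    ring
  have hmain : Tendsto (fun t : ℝ => ∫ u in Set.Ioi (0 : ℝ), kk ρ u *
      (sbJ (u / t) - Real.log (u / t))) (𝓝[>] 0)
      (𝓝 (∫ u in Set.Ioi (0 : ℝ), kk ρ u * Real.eulerMascheroniConstant)) := by
    refine tendsto_integral_filter_of_dominated_convergence
      (fun u => kk ρ u * 1 + kk ρ u * |Real.log u|) ?_ ?_
      ((htot.1.mul_const _).add (kk_log_int hρ)) ?_
    · refine Eventually.of_forall fun t => ?_
      exact ((kk_cont hρ).measurable.mul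
        ((sbJ_mono.measurable.comp (measurable_id.div_const t)).sub
          (Real.measurable_log.comp (measurable_id.div_const t)))).aestronglyMeasurable
    · have : ∀ᶠ t : ℝ in 𝓝[>] 0, t ∈ Set.Ioo (0 : ℝ) 1 := Ioo_mem_nhdsGT one_pos
      filter_upwards [this] with t ht
      refine (ae_restrict_iff' measurableSet_Ioi).2 (Eventually.of_forall ?_)
      intro u hu
      have hu0 : (0 : ℝ) < u := hu
      rw [norm_mul, Real.norm_of_nonneg (kk_nonneg ρ u), Real.norm_eq_abs, ← mul_add]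
      refine mul_le_mul_of_nonneg_left ?_ (kk_nonneg ρ u)
      have hx : 0 < u / t := div_pos hu0 ht.1
      rcases le_or_gt 1 (u / t) with h | h
      · exact ((sbJ_bd hx).2 h).trans (by linarith [abs_nonneg (Real.log u)])
      · refine (sbJ_bd hx).1.trans ?_
        have hut : u < t := by
          rwa [div_lt_one ht.1] at h
        have h1 : Real.log (u / t) ≤ 0 := Real.log_nonpos hx.le h.le
        have h2 : Real.log u ≤ Real.log (u / t) := by
          refine Real.log_le_log hu0 ?_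
          rw [le_div_iff₀ ht.1]
          nlinarith [ht.1, ht.2]
        rw [abs_of_nonpos h1, abs_of_nonpos (h2.trans h1)]
        linarith
    · refine (ae_restrict_iff' measurableSet_Ioi).2 (Eventually.of_forall ?_)
      intro u hu
      have hu0 : (0 : ℝ) < u := hu
      refine Tendsto.const_mul _ ?_
      refine sbJ_lim.comp ?_
      have h1 : Tendsto (fun t : ℝ => t⁻¹) (𝓝[>] 0) atTop := tendsto_inv_nhdsGT_zero
      have h2 := h1.const_mul_atTop hu0
      refine h2.congr fun t => ?_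
      rw [div_eq_mul_inv]
  have hc : ∫ u in Set.Ioi (0 : ℝ), kk ρ u * Real.eulerMascheroniConstant =
      Real.eulerMascheroniConstant * Cr ρ := by
    rw [integral_mul_const, htot.2, mul_comm]
  rw [hc] at hmain
  refine (hmain.const_add (∫ u in Set.Ioi (0 : ℝ), kk ρ u * Real.log u)).congr' ?_
  filter_upwards [self_mem_nhdsWithin] with t ht
  exact (hrew t ht).symm

end Pool.Agent.LSP
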