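import Pool.Agent.Lib_helper41.LSPG.GFI
import Pool.Agent.Lib_helper31.LK.Defs

/-! LSP3, part G: the geometry with explicit constants. -/

set_option autoImplicit false

namespace Pool.Agent.LSP

open Pool.Agent.LEV Pool.Agent.LVB Pool.Agent.KSL
open Pool.Agent.FG61 (mu phi cc ff AA Lam)
open Complex MeasureTheory Filter Topology UpperHalfPlane ModularGroup ProbabilityTheory
open scoped MatrixGroups Modular ENNReal ModularForm ComplexConjugate ContDiff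

/-- the dual norm inequality with an explicit constant -/
theorem geo_unif {T : ℝ} {ρ : ℝ → ℝ} (hρ : KerL T ρ) {B₀ : ℕ} (hB : 1 + T ^ 2 ≤ (B₀ : ℝ)) {C₁ : ℝ}
    (hC1 : 0 < C₁) (herr : ∀ m : ℕ, 1 ≤ m → ∀ yS : ℝ, 0 < yS →
      ‖(∫ y in Set.Ioi yS, ((Real.exp (-2 * Real.pi * m * y) : ℝ) : ℂ) * kh ρ (-(m * y))) -
        1 / (2 * Real.pi * m)‖ ≤ C₁ * yS) (N : ℕ) [Fact N.Prime] (E m₀ : ℕ) (hE1 : 1 ≤ E)
    (hm₀ : 1 ≤ m₀) (hCN : 4 * Real.pi * (3 * C₁ + 4) * (T + 2) * m₀ * E ≤ N)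
    (x : ℕ → ℝ) (hx : ∀ e, x e ≠ 0 → 1 ≤ e ∧ e ≤ E) (hx0 : ∑ e ∈ Finset.Icc 1 E, x e * sg1 e / e = 0)
    {ι : Type} [Fintype ι] (f : ι → S2 N) (hi : Function.Injective f) (hn : ∀ i, IsNew (f i))
    (s : ℕ → ℝ) (hs : ∀ m, s m ≠ 0 → 1 ≤ m ∧ m ≤ m₀) (τ : ℝ) :
      ∑ i, om (f i) * ((Lh (f i)).re * MX E x (la (f i)) +
          τ * ∑ m ∈ Finset.Icc 1 m₀, s m * Um m (la (f i))) ^ 2 ≤
        QN ρ T B₀ E x N + 2 * τ * ∑ m ∈ Finset.Icc 1 m₀, s m * WW E (wX E x) m / Real.sqrt m +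
          τ ^ 2 * ∑ m ∈ Finset.Icc 1 m₀, s m ^ 2 +
          4 * Real.pi * (3 * C₁ + 4) * (T + 2) * (E / N) *
            (|τ| * ∑ m ∈ Finset.Icc 1 m₀, |s m| * |WW E (wX E x) m| * Real.sqrt m +
            τ ^ 2 * ∑ m ∈ Finset.Icc 1 m₀, s m ^ 2 * m) := by
  have hT : 1 ≤ T := hρ.T1
  have hpi := Real.pi_gt_three
  set C : ℝ := 4 * Real.pi * (3 * C₁ + 4) * (T + 2) with hC
  have hCpi : 4 * Real.pi * (T + 2) ≤ C := by
    rw [hC]
    have : 4 * Real.pi * 1 * (T + 2) ≤ 4 * Real.pi * (3 * C₁ + 4) * (T + 2) := by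
      gcongr
      linarith
    linarith
  have hC36 : 36 ≤ 4 * Real.pi * (T + 2) := by nlinarith
  have hNp : N.Prime := Fact.out
  have hN1 : 1 ≤ N := hNp.one_lt.le
  have hNpos : (0 : ℝ) < N := by exact_mod_cast hNp.pos
  have hE' : (1 : ℝ) ≤ E := by exact_mod_cast hE1
  have hm' : (1 : ℝ) ≤ m₀ := by exact_mod_cast hm₀
  have hbig : 36 * (m₀ : ℝ) * E ≤ N := by
    refine le_trans ?_ hCN
    have : (36 : ℝ) ≤ C := by linarith
    gcongr
  have hEN : E < N := by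
    have : (E : ℝ) < N := by nlinarith
    exact_mod_cast this
  have hmN : m₀ < N := by
    have : (m₀ : ℝ) < N := by nlinarith
    exact_mod_cast this
  set yS : ℝ := (T + 2) * E / N with hyS
  have hyS0 : 0 < yS := by positivity
  have hyS1 : 1 / (N : ℝ) ≤ yS := by
    rw [hyS]
    gcongr
    nlinarith
  have hsmall : ∀ m : ℕ, m ∈ Finset.Icc 1 m₀ → 4 * Real.pi * m * yS ≤ 1 := by
    intro m hm
    have hm2 : (m : ℝ) ≤ m₀ := by exact_mod_cast (Finset.mem_Icc.mp hm).2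
    rw [hyS, mul_div_assoc', div_le_one hNpos]
    calc 4 * Real.pi * m * ((T + 2) * E) ≤ 4 * Real.pi * m₀ * ((T + 2) * E) := by gcongr
      _ = 4 * Real.pi * (T + 2) * m₀ * E := by ring
      _ ≤ C * m₀ * E := by gcongr
      _ ≤ N := hCN
  set w : ℕ → ℝ := wX E x with hw
  -- the inequality for each `Y`
  set L : ℝ → ℝ := fun Y => ∑ i, om (f i) * ‖2 * Real.pi * ipH (f i) (KY ρ N E w Y) +
    τ * (2 * Real.pi * ipH (f i) (KS m₀ s yS Y))‖ ^ 2 with hL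
  set R : ℝ → ℝ := fun Y => Real.pi * ((PP N (KY ρ N E w Y) (KY ρ N E w Y)).re +
    2 * τ * (PP N (KS m₀ s yS Y) (KY ρ N E w Y)).re +
    τ ^ 2 * (PP N (KS m₀ s yS Y) (KS m₀ s yS Y)).re) with hR
  have hLR : ∀ Y, L Y ≤ R Y := by
    intro Y
    have hb1 : Bd (KY ρ N E w Y) := ky_bd hρ hN1 E w Y
    have hb2 : Bd (KS m₀ s yS Y) := ks_bd m₀ s hyS0 Y
    have h1 := fam_bessel (N := N) (bd_add hb1 hb2 (τ : ℂ)) f hi hn
    rw [pp_expand hb1 hb2] at h1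
    refine le_trans (le_of_eq ?_) h1
    rw [hL]
    refine Finset.sum_congr rfl fun i _ => ?_
    rw [ip_add hb1 hb2]
    congr 3
    ring
  have hLlim : Tendsto L atTop (𝓝 (∑ i, om (f i) * ‖Lh (f i) * ((MX E x (la (f i)) : ℝ) : ℂ) +
      τ * ((∑ m ∈ Finset.Icc 1 m₀, s m * la (f i) m : ℝ) : ℂ)‖ ^ 2)) := by
    refine tendsto_finset_sum _ fun i _ => Tendsto.const_mul _ ?_
    refine (Tendsto.norm ?_).pow 2
    exact (GFI_ky_lim hρ (hn i) hEN hx).add ((ks_coef (hn i) hs hyS0).const_mul _)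
  have hRlim : Tendsto R atTop (𝓝 (Real.pi * (QN ρ T B₀ E x N / Real.pi +
      2 * τ * (∑ m ∈ Finset.Icc 1 m₀,
        ((s m * (2 * Real.sqrt m) * Real.exp (4 * Real.pi * m * yS) * WW E w m : ℝ) : ℂ) *
          ∫ y in Set.Ioi yS, ((Real.exp (-2 * Real.pi * m * y) : ℝ) : ℂ) * kh ρ (-(m * y))).re +
      τ ^ 2 * (1 / Real.pi * ∑ m ∈ Finset.Icc 1 m₀, s m ^ 2 *
        Real.exp (4 * Real.pi * m * yS))))) := by
    refine Tendsto.const_mul _ ?_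
    refine ((pp_lim hρ hB hNp hE1 hEN hx hx0).add (Tendsto.const_mul _ ?_)).add
      (Tendsto.const_mul _ (ks_norm hs hyS1))
    exact (Complex.continuous_re.tendsto _).comp (ks_cross hρ hE1 hEN w hs (le_refl _))
  have hmain := le_of_tendsto_of_tendsto' hLlim hRlim hLR
  -- the left hand side
  have hleft : ∑ i, om (f i) * ((Lh (f i)).re * MX E x (la (f i)) +
          τ * ∑ m ∈ Finset.Icc 1 m₀, s m * Um m (la (f i))) ^ 2 ≤
      ∑ i, om (f i) * ‖Lh (f i) * ((MX E x (la (f i)) : ℝ) : ℂ) +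
      τ * ((∑ m ∈ Finset.Icc 1 m₀, s m * la (f i) m : ℝ) : ℂ)‖ ^ 2 := by
    refine Finset.sum_le_sum fun i _ => ?_
    have hom : 0 ≤ om (f i) := by
      unfold om
      have := nr_pos (new_ne_zero_pr (hn i))
      positivity
    refine mul_le_mul_of_nonneg_left ?_ hom
    have hum : ∑ m ∈ Finset.Icc 1 m₀, s m * Um m (la (f i)) =
        ∑ m ∈ Finset.Icc 1 m₀, s m * la (f i) m := by
      refine Finset.sum_congr rfl fun m hm => ?_
      have hm2 := Finset.mem_Icc.mp hm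
      rw [um_new_pr (hn i) (new_real_pr (hn i)) (by omega) (Nat.Coprime.symm ((Nat.Prime.coprime_iff_not_dvd hNp).mpr
        (Nat.not_dvd_of_pos_of_lt (by omega) (by omega))))]
    rw [hum]
    set A : ℂ := Lh (f i) * ((MX E x (la (f i)) : ℝ) : ℂ) +
      τ * ((∑ m ∈ Finset.Icc 1 m₀, s m * la (f i) m : ℝ) : ℂ) with hA
    have hAre : A.re = (Lh (f i)).re * MX E x (la (f i)) +
        τ * ∑ m ∈ Finset.Icc 1 m₀, s m * la (f i) m := by
      rw [hA, Complex.add_re, Complex.re_mul_ofReal, Complex.re_ofReal_mul, Complex.ofReal_re]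
    rw [← hAre, ← sq_abs A.re]
    exact pow_le_pow_left₀ (abs_nonneg _) (Complex.abs_re_le_norm A) 2
  refine hleft.trans (hmain.trans ?_)
  -- the right hand side
  rw [Complex.re_sum]
  have hpi0 : Real.pi ≠ 0 := Real.pi_pos.ne'
  have hcross : ∀ m ∈ Finset.Icc 1 m₀, 2 * Real.pi * τ *
      (((s m * (2 * Real.sqrt m) * Real.exp (4 * Real.pi * m * yS) * WW E w m : ℝ) : ℂ) *
          ∫ y in Set.Ioi yS, ((Real.exp (-2 * Real.pi * m * y) : ℝ) : ℂ) * kh ρ (-(m * y))).re ≤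
      2 * τ * (s m * WW E w m / Real.sqrt m) +
        4 * Real.pi * (3 * C₁ + 4) * yS * (|τ| * (|s m| * |WW E w m| * Real.sqrt m)) := by
    intro m hm
    exact GFI_term hC1 hyS0 (Finset.mem_Icc.mp hm).1 (hsmall m hm)
      (herr m (Finset.mem_Icc.mp hm).1 yS hyS0) _ _ _
  have hdiag : ∀ m ∈ Finset.Icc 1 m₀, τ ^ 2 * (s m ^ 2 * Real.exp (4 * Real.pi * m * yS)) ≤
      τ ^ 2 * s m ^ 2 + 4 * Real.pi * (3 * C₁ + 4) * yS * (τ ^ 2 * (s m ^ 2 * m)) := by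
    intro m hm
    have hm1 : (0 : ℝ) ≤ m := Nat.cast_nonneg m
    have h1 := (GFI_exp (by positivity) (hsmall m hm)).1
    have h2 : 0 ≤ τ ^ 2 * s m ^ 2 := by positivity
    have h3 : 2 * (4 * Real.pi * m * yS) ≤ 4 * Real.pi * (3 * C₁ + 4) * yS * m := by
      have : 2 * (4 * Real.pi * m * yS) = 4 * Real.pi * 2 * yS * m := by ring
      rw [this]
      gcongr
      linarith
    nlinarith [mul_le_mul_of_nonneg_left (h1.trans h3) h2]
  have e1 := Finset.sum_le_sum hcross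
  have e2 := Finset.sum_le_sum hdiag
  rw [Finset.sum_add_distrib, ← Finset.mul_sum, ← Finset.mul_sum, ← Finset.mul_sum,
    ← Finset.mul_sum] at e1
  rw [Finset.sum_add_distrib, ← Finset.mul_sum, ← Finset.mul_sum, ← Finset.mul_sum,
    ← Finset.mul_sum] at e2
  have hCy : C * (E / N) = 4 * Real.pi * (3 * C₁ + 4) * yS := by
    rw [hC, hyS]
    ring
  rw [hCy]
  have e3 : ∀ S₁ S₂ : ℝ, Real.pi * (QN ρ T B₀ E x N / Real.pi + 2 * τ * S₁ +
      τ ^ 2 * (1 / Real.pi * S₂)) = QN ρ T B₀ E x N + 2 * Real.pi * τ * S₁ + τ ^ 2 * S₂ := by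
    intro S₁ S₂
    field_simp
  rw [e3]
  linarith


/-- the Laplace transform of the kernel, with an explicit constant -/
theorem kh_err_unif {T : ℝ} {ρ : ℝ → ℝ} (hρ : KerL T ρ) (m : ℕ) (hm : 1 ≤ m) (yS : ℝ)
    (hyS : 0 < yS) :
    ‖(∫ y in Set.Ioi yS, ((Real.exp (-2 * Real.pi * m * y) : ℝ) : ℂ) * kh ρ (-(m * y))) -
      1 / (2 * Real.pi * m)‖ ≤ (T + 1) * yS := by
  have hK := hρ.toKer
  have hT := hρ.T1
  have hbd : ∫ t : ℝ, ‖ksi_k ρ t‖ ≤ T + 1 := by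
    have h1 : ∀ t : ℝ, ‖ksi_k ρ t‖ ≤ (T + 1) * ρ t := by
      intro t
      unfold ksi_k
      by_cases ht : T < |t|
      · rw [hK.supp t ht]
        simp
      · rw [not_lt] at ht
        rw [norm_mul, Complex.norm_real, Real.norm_eq_abs, abs_of_nonneg (hK.nonneg t), mul_comm]
        refine mul_le_mul_of_nonneg_right ?_ (hK.nonneg t)
        refine (norm_sub_le _ _).trans ?_
        rw [norm_one, norm_mul, Complex.norm_I, Complex.norm_real, Real.norm_eq_abs]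
        linarith
    have hi : Integrable ρ := hK.cont.integrable_of_hasCompactSupport
      (HasCompactSupport.intro (isCompact_Icc (a := -T) (b := T)) fun t ht => by
        refine hK.supp t ?_
        by_contra hcon
        exact ht (abs_le.mp (not_lt.mp hcon)))
    calc ∫ t : ℝ, ‖ksi_k ρ t‖ ≤ ∫ t : ℝ, (T + 1) * ρ t :=
          integral_mono (ksi_int hK).norm (hi.const_mul _) h1
      _ = T + 1 := by rw [integral_const_mul, hK.int, mul_one]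
  obtain ⟨h1, h2⟩ := kh_laplace_pr hρ hm
  set f : ℝ → ℂ := fun y => ((Real.exp (-2 * Real.pi * m * y) : ℝ) : ℂ) * kh ρ (-(m * y)) with hf
  have h3 : (∫ y in Set.Ioi (0 : ℝ), f y) = (∫ y in Set.Ioc 0 yS, f y) + ∫ y in Set.Ioi yS, f y := by
    rw [← setIntegral_union (Set.Ioc_disjoint_Ioi le_rfl) measurableSet_Ioi
      (h1.mono_set Set.Ioc_subset_Ioi_self) (h1.mono_set (Set.Ioi_subset_Ioi hyS.le)),
      Set.Ioc_union_Ioi_eq_Ioi hyS.le]
  have h4 : (∫ y in Set.Ioi yS, f y) - 1 / (2 * Real.pi * m) = -∫ y in Set.Ioc 0 yS, f y := by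
    rw [← h2, h3]
    ring
  rw [h4, norm_neg]
  have h5 : ∀ y ∈ Set.Ioc 0 yS, ‖f y‖ ≤ T + 1 := by
    intro y hy
    rw [hf]
    show ‖((Real.exp (-2 * Real.pi * m * y) : ℝ) : ℂ) * kh ρ (-(m * y))‖ ≤ _
    rw [norm_mul, Complex.norm_real, Real.norm_eq_abs, Real.abs_exp]
    have h6 : Real.exp (-2 * Real.pi * m * y) ≤ 1 := by
      rw [Real.exp_le_one_iff]
      have h7 : 0 ≤ Real.pi * m * y := by
        have := hy.1
        positivity
      linarith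
    calc Real.exp (-2 * Real.pi * m * y) * ‖kh ρ (-(m * y))‖ ≤ 1 * (T + 1) :=
          mul_le_mul h6 ((ksi_bd (T := T) _).trans hbd) (norm_nonneg _) zero_le_one
      _ = T + 1 := one_mul _
  have h6 := norm_setIntegral_le_of_norm_le_const (μ := volume) (s := Set.Ioc 0 yS) (f := f)
    (C := T + 1) (by rw [Real.volume_Ioc]; exact ENNReal.ofReal_lt_top) h5
  rw [Real.volume_real_Ioc_of_le hyS.le, sub_zero] at h6
  exact h6

/-- the dual norm inequality, with a constant polynomial in `T` -/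
theorem geo_poly {T : ℝ} {ρ : ℝ → ℝ} (hρ : KerL T ρ) {B₀ : ℕ} (hB : 1 + T ^ 2 ≤ (B₀ : ℝ))
    (N : ℕ) [Fact N.Prime] (E m₀ : ℕ) (hE1 : 1 ≤ E)
    (hm₀ : 1 ≤ m₀) (hCN : 400 * T ^ 2 * m₀ * E ≤ N)
    (x : ℕ → ℝ) (hx : ∀ e, x e ≠ 0 → 1 ≤ e ∧ e ≤ E) (hx0 : ∑ e ∈ Finset.Icc 1 E, x e * sg1 e / e = 0)
    {ι : Type} [Fintype ι] (f : ι → S2 N) (hi : Function.Injective f) (hn : ∀ i, IsNew (f i))
    (s : ℕ → ℝ) (hs : ∀ m, s m ≠ 0 → 1 ≤ m ∧ m ≤ m₀) (τ : ℝ) :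
      ∑ i, om (f i) * ((Lh (f i)).re * MX E x (la (f i)) +
          τ * ∑ m ∈ Finset.Icc 1 m₀, s m * Um m (la (f i))) ^ 2 ≤
        QN ρ T B₀ E x N + 2 * τ * ∑ m ∈ Finset.Icc 1 m₀, s m * WW E (wX E x) m / Real.sqrt m +
          τ ^ 2 * ∑ m ∈ Finset.Icc 1 m₀, s m ^ 2 +
          400 * T ^ 2 * (E / N) *
            (|τ| * ∑ m ∈ Finset.Icc 1 m₀, |s m| * |WW E (wX E x) m| * Real.sqrt m +
            τ ^ 2 * ∑ m ∈ Finset.Icc 1 m₀, s m ^ 2 * m) := by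
  have hT : 1 ≤ T := hρ.T1
  have hpi := Real.pi_lt_d2
  have hpi0 := Real.pi_pos
  have h0 : 4 * Real.pi * (3 * (T + 1) + 4) * (T + 2) ≤ 400 * T ^ 2 := by
    have h1 : (3 * (T + 1) + 4) * (T + 2) ≤ 30 * T ^ 2 := by nlinarith
    calc 4 * Real.pi * (3 * (T + 1) + 4) * (T + 2) =
          4 * Real.pi * ((3 * (T + 1) + 4) * (T + 2)) := by ring
      _ ≤ 4 * 3.15 * (30 * T ^ 2) := by gcongr
      _ ≤ 400 * T ^ 2 := by nlinarith
  have h1 := geo_unif hρ hB (C₁ := T + 1) (by linarith) (kh_err_unif hρ) N E m₀ hE1 hm₀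
    ((by gcongr : 4 * Real.pi * (3 * (T + 1) + 4) * (T + 2) * m₀ * E ≤ 400 * T ^ 2 * m₀ * E).trans
      hCN) x hx hx0 f hi hn s hs τ
  refine h1.trans ?_
  have hnn : 0 ≤ |τ| * ∑ m ∈ Finset.Icc 1 m₀, |s m| * |WW E (wX E x) m| * Real.sqrt m +
            τ ^ 2 * ∑ m ∈ Finset.Icc 1 m₀, s m ^ 2 * m := by
    have h2 : 0 ≤ ∑ m ∈ Finset.Icc 1 m₀, |s m| * |WW E (wX E x) m| * Real.sqrt m :=
      Finset.sum_nonneg fun m _ => by positivity
    have h3 : 0 ≤ ∑ m ∈ Finset.Icc 1 m₀, s m ^ 2 * (m : ℝ) :=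
      Finset.sum_nonneg fun m _ => by positivity
    positivity
  gcongr

/-- the second moment is bounded by the quadratic form, for every prime level larger than `E` -/
theorem geo_zero {T : ℝ} {ρ : ℝ → ℝ} (hρ : KerL T ρ) {B₀ : ℕ} (hB : 1 + T ^ 2 ≤ (B₀ : ℝ))
    (N : ℕ) [Fact N.Prime] (E : ℕ) (hE1 : 1 ≤ E) (hEN : E < N)
    (x : ℕ → ℝ) (hx : ∀ e, x e ≠ 0 → 1 ≤ e ∧ e ≤ E) (hx0 : ∑ e ∈ Finset.Icc 1 E, x e * sg1 e / e = 0)
    {ι : Type} [Fintype ι] (f : ι → S2 N) (hi : Function.Injective f) (hn : ∀ i, IsNew (f i)) :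
    ∑ i, om (f i) * ((Lh (f i)).re * MX E x (la (f i))) ^ 2 ≤ QN ρ T B₀ E x N := by
  have hNp : N.Prime := Fact.out
  have hN1 : 1 ≤ N := hNp.one_lt.le
  set w : ℕ → ℝ := wX E x with hw
  have hLR : ∀ Y : ℝ, ∑ i, om (f i) * ‖2 * Real.pi * ipH (f i) (KY ρ N E w Y)‖ ^ 2 ≤
      Real.pi * (PP N (KY ρ N E w Y) (KY ρ N E w Y)).re := fun Y =>
    fam_bessel (N := N) (ky_bd hρ hN1 E w Y) f hi hn
  have hLlim : Tendsto (fun Y : ℝ => ∑ i, om (f i) * ‖2 * Real.pi * ipH (f i) (KY ρ N E w Y)‖ ^ 2)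
      atTop (𝓝 (∑ i, om (f i) * ‖Lh (f i) * ((MX E x (la (f i)) : ℝ) : ℂ)‖ ^ 2)) := by
    refine tendsto_finsetSum _ fun i _ => Tendsto.const_mul _ ?_
    exact (Tendsto.norm (GFI_ky_lim hρ (hn i) hEN hx)).pow 2
  have hRlim : Tendsto (fun Y : ℝ => Real.pi * (PP N (KY ρ N E w Y) (KY ρ N E w Y)).re) atTop
      (𝓝 (Real.pi * (QN ρ T B₀ E x N / Real.pi))) :=
    Tendsto.const_mul _ (pp_lim hρ hB hNp hE1 hEN hx hx0)
  have hmain := le_of_tendsto_of_tendsto' hLlim hRlim hLR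
  have hpi0 : Real.pi ≠ 0 := Real.pi_pos.ne'
  rw [mul_div_cancel₀ _ hpi0] at hmain
  refine le_trans (Finset.sum_le_sum fun i _ => ?_) hmain
  have hom : 0 ≤ om (f i) := by
    unfold om
    have := nr_pos (new_ne_zero_pr (hn i))
    positivity
  refine mul_le_mul_of_nonneg_left ?_ hom
  have h1 : (Lh (f i)).re * MX E x (la (f i)) =
      (Lh (f i) * ((MX E x (la (f i)) : ℝ) : ℂ)).re := by
    rw [Complex.re_mul_ofReal]
  rw [h1, ← sq_abs]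
  exact pow_le_pow_left₀ (abs_nonneg _) (Complex.abs_re_le_norm _) 2

end Pool.Agent.LSP
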