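import Pool.Agent.Lib_helper41.LSP3.SD
import Pool.Agent.Lib_helper41.LSPG.GHF
import Pool.Agent.Lib_helper14.LSP3.S2d

/-! LSP3, part S: the terms with a common end point. Final statement. -/

set_option autoImplicit false

namespace Pool.Agent.LSP

open Pool.Agent.KSL
open Complex MeasureTheory Filter Topology

/-- the terms with a common end point, for a weight close to the Cauchy weight -/
theorem sh_close_fin : ∃ C : ℝ, ∀ T : ℝ, 4 ≤ T → ∀ ρ : ℝ → ℝ, Pool.Agent.LK.KerC T ρ →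
    ∀ E N : ℕ, 1 ≤ E → 1 ≤ N → ∀ x : ℕ → ℝ, (∀ e, x e ≠ 0 → 1 ≤ e ∧ e ≤ E) →
    ∑ e ∈ Finset.Icc 1 E, x e * sg1 e / e = 0 →
    |sh ρ T E x N - ∑ n ∈ Finset.Icc 1 (E ^ 2), CC E x n * tau n *
        Real.log (N / (4 * Real.pi ^ 2 * n))| ≤
      C * T ^ (-(1 / 4) : ℝ) * (1 + Real.log N + 2 * Real.log E) *
        ∑ n ∈ Finset.Icc 1 (E ^ 2), |CC E x n| * tau n := by
  obtain ⟨C, hC⟩ := ker_const
  refine ⟨max C 0, fun T hT ρ hρ E N hE hN x hx h0 => ?_⟩
  obtain ⟨h1, h2⟩ := hC T hT ρ hρ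
  have hT0 : (0 : ℝ) < T := by linarith
  have hx0 : ∀ e, E < e → x e = 0 := by
    intro e he
    by_contra h
    have := (hx e h).2
    omega
  have hw : WW E (wX E x) 0 = 0 := by
    rw [ww_zero_x_pr hx, h0]
  have hT1 : 1 / T ≤ T ^ (-(1 / 4) : ℝ) := by
    rw [one_div, ← Real.rpow_neg_one]
    exact Real.rpow_le_rpow_of_exponent_le (by linarith) (by norm_num)
  have hm0 : (0 : ℝ) ≤ max C 0 := le_max_right _ _
  have hm1 : C ≤ max C 0 := le_max_left _ _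
  have hp : (0 : ℝ) ≤ T ^ (-(1 / 4) : ℝ) := by positivity
  refine sh_close hρ.toKerL hE hx0 hw hN ?_ ?_
  · refine h1.trans ?_
    calc C / T ≤ max C 0 / T := div_le_div_of_nonneg_right hm1 hT0.le
      _ = max C 0 * (1 / T) := by ring
      _ ≤ _ := mul_le_mul_of_nonneg_left hT1 hm0
  · exact h2.trans (mul_le_mul_of_nonneg_right hm1 hp)

end Pool.Agent.LSP
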