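import Pool.Agent.Lib_helper53.LE.Defs
import Pool.Agent.Lib_helper53.LEF.EB
import Pool.Agent.Lib_helper53.LEF.EC
import Pool.Agent.Lib_helper53.LEF.ED
import Pool.Agent.Lib_helper53.LEF.EE
import Pool.Agent.Lib_helper53.LEF.EG
import Pool.Agent.Lib_helper53.LEF.EZ

/-! LSP3, assembly: the linear functional. -/

set_option autoImplicit false

namespace Pool.Agent.L3

open Complex MeasureTheory ProbabilityTheory
open Pool.Agent.LSP (tau MX CC CB sg1 wX)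
open Pool.Agent.KSL (WW)
open Pool.Agent.LEV (Uu Um)
open Pool.Agent.LVB (IsST el)
open Pool.Agent.LK (Qe V PQ MW)
open Pool.Agent.LE

/-- the vector of `S = ∑ s_m U_m` -/
noncomputable def vs (s : ℕ → ℝ) (m : ℕ) : ℝ := Real.sqrt m * s m

theorem vs_supp {m₀ : ℕ} {s : ℕ → ℝ} (hs : SuppIn m₀ s) : SuppIn m₀ (vs s) := by
  intro e he
  refine hs e fun h => he ?_
  unfold vs
  rw [h, mul_zero]

theorem mx_vs {m₀ : ℕ} (s : ℕ → ℝ) (la : ℕ → ℝ) :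
    MX m₀ (vs s) la = ∑ m ∈ Finset.Icc 1 m₀, s m * Um m la := by
  unfold MX vs
  refine Finset.sum_congr rfl fun m hm => ?_
  have hm0 : (0 : ℝ) < m := by exact_mod_cast (Finset.mem_Icc.mp hm).1
  have : Real.sqrt m ≠ 0 := (Real.sqrt_pos.mpr hm0).ne'
  field_simp

/-- the vector `b * S` -/
theorem mx_lin {K m₀ : ℕ} (hm : 1 ≤ m₀) {b s : ℕ → ℝ} (hb : SuppIn K b) (hs : SuppIn m₀ s) :
    MX (K * m₀) (HP (K * m₀) b (vs s)) =
      fun x => MX K b x * ∑ m ∈ Finset.Icc 1 m₀, s m * Um m x := by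
  funext x
  rw [mx_hp_pr hb (vs_supp hs) (Nat.le_mul_of_pos_right K hm) le_rfl, mx_vs]

/-- the vector `b * b` -/
theorem mx_sq {K : ℕ} (hK : 1 ≤ K) {b : ℕ → ℝ} (hb : SuppIn K b) :
    MX (K * K) (HP (K * K) b b) = fun x => MX K b x ^ 2 := by
  funext x
  rw [mx_hp_pr hb hb (Nat.le_mul_of_pos_right K hK) le_rfl, pow_two]

theorem hp_zero (E : ℕ) (z : ℕ → ℝ) (n : ℕ) : HP E (fun _ => 0) z n = 0 := by
  unfold HP
  simp

theorem hp_sum {J : Finset ℕ} (E : ℕ) (θ : ℕ → ℝ) (x : ℕ → ℕ → ℝ) (z : ℕ → ℝ) (n : ℕ) :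
    HP E (fun e => ∑ i ∈ J, θ i * x i e) z n = ∑ i ∈ J, θ i * HP E (x i) z n := by
  classical
  induction J using Finset.induction_on with
  | empty => simpa using hp_zero E z n
  | insert a J ha ih =>
    rw [Finset.sum_insert ha, ← ih]
    have h1 : (fun e => ∑ i ∈ insert a J, θ i * x i e) =
        fun e => θ a * x a e + 1 * (∑ i ∈ J, θ i * x i e) := by
      funext e
      rw [Finset.sum_insert ha, one_mul]
    rw [h1, congrFun (hp_add_pr E (θ a) 1 (x a) (fun e => ∑ i ∈ J, θ i * x i e) z) n, one_mul]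

variable {q : ℕ} [NeZero q]

theorem xv_supp (χ : DirichletCharacter ℂ q) (i : ℕ) (Y : ℝ) (A : ℕ) : SuppIn A (xv χ i Y A) := by
  intro e he
  unfold xv at he
  by_contra h
  exact he (if_neg h)

theorem u_supp (χ : DirichletCharacter ℂ q) (J : Finset ℕ) (θ : ℕ → ℝ) (Y : ℝ) (A : ℕ) :
    SuppIn A (fun e => ∑ i ∈ J, θ i * xv χ i Y A e) := by
  intro e he
  by_contra h
  apply he
  refine Finset.sum_eq_zero fun i _ => ?_
  have : xv χ i Y A e = 0 := by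
    by_contra h2
    exact h (xv_supp χ i Y A e h2)
  rw [this, mul_zero]

/-- the residue of the linear functional -/
noncomputable def R1 (χ : DirichletCharacter ℂ q) (P : Measure (ℕ → ℝ)) (I : Finset ℕ) (K : ℕ)
    (B : ℕ → ℝ) (Y ρ : ℝ) (i : ℕ) : ℂ :=
  1 / (2 * Real.pi * Complex.I) * ∮ z in C(0, ρ), H1 χ P I K B Y z / z ^ (i + 1)

/-- the vector of the mollified central value -/
noncomputable def xx (χ : DirichletCharacter ℂ q) (J : Finset ℕ) (θ b : ℕ → ℝ) (Y : ℝ)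
    (A E : ℕ) : ℕ → ℝ := HP E (fun e => ∑ i ∈ J, θ i * xv χ i Y A e) b

theorem xx_supp (χ : DirichletCharacter ℂ q) (J : Finset ℕ) (θ : ℕ → ℝ) (Y : ℝ) (A E : ℕ) {K : ℕ}
    {b : ℕ → ℝ} (hb : SuppIn K b) (hE : A * K ≤ E) : SuppIn E (xx χ J θ b Y A E) := by
  intro e he
  have h := hp_supp_pr (E := E) (u_supp χ J θ Y A) hb e he
  exact ⟨h.1, h.2.trans hE⟩

/-- the zero mode -/
theorem xx_zero (χ : DirichletCharacter ℂ q) (J : Finset ℕ) (θ : ℕ → ℝ) (Y : ℝ) {A E K : ℕ}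
    {b : ℕ → ℝ} (hb : SuppIn K b) (hK : 1 ≤ K) (hE : A * K ≤ E)
    (h0 : ∑ e ∈ Finset.Icc 1 K, b e * sg1 e / e = 0) :
    ∑ e ∈ Finset.Icc 1 E, xx χ J θ b Y A E e * sg1 e / e = 0 := by
  unfold xx
  rw [zm_hp_pr (u_supp χ J θ Y A) hb ((Nat.le_mul_of_pos_right A hK).trans hE) hE, h0, mul_zero]

/-- the linear functional is a combination of residues -/
theorem lin_res (J : Finset ℕ) : ∃ C : ℝ, 0 ≤ C ∧ ∀ (q : ℕ) [NeZero q]
    (χ : DirichletCharacter ℂ q), PQ χ →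
    ∀ (I : Finset ℕ) (P : Measure (ℕ → ℝ)), (∀ p ∈ I, p.Prime) → IsST I P →
    ∀ K m₀ : ℕ, 1 ≤ K → 1 ≤ m₀ → (∀ p : ℕ, p.Prime → p ≤ K * m₀ → p ∈ I) →
    ∀ (b s : ℕ → ℝ) (b₀ s₀ : ℝ), SuppIn K b → SuppIn m₀ s → (∀ k, |b k| ≤ b₀) →
    (∀ m, |vs s m| ≤ s₀) → ∀ Y : ℝ, 1 ≤ Y → ∀ A : ℕ, Y * (1 + Real.log Y) ≤ A →
    ∀ E : ℕ, A * K ≤ E → ∀ θ : ℕ → ℝ, ∀ ρ : ℝ, 0 < ρ → ρ < 1 / 4 →
    |(∑ m ∈ Finset.Icc 1 m₀, s m * WW E (wX E (xx χ J θ b Y A E)) m / Real.sqrt m) -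
      ∑ i ∈ J, θ i * (R1 χ P I (K * m₀) (HP (K * m₀) b (vs s)) Y ρ i).re| ≤
      C * (∑ i ∈ J, |θ i|) * (b₀ * s₀ * m₀ ^ 2) * q ^ 4 * ((K * m₀ : ℕ) : ℝ) ^ 30 *
        Y ^ (-(1 / 4) : ℝ) := by
  classical
  choose c hc using fun i => e_lin_pr i
  refine ⟨∑ i ∈ J, |c i|, Finset.sum_nonneg fun i _ => abs_nonneg _, ?_⟩
  intro q _ χ hχ I P hI hP K m₀ hK hm₀ hKI b s b₀ s₀ hb hs hb₀ hs₀ Y hY A hA E hE θ ρ hρ hρ1
  have hAE : A ≤ E := (Nat.le_mul_of_pos_right A hK).trans hE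
  have hx := xx_supp χ J θ Y A E hb hE
  have hAKm : A * K * m₀ ≤ E * m₀ := Nat.mul_le_mul_right m₀ hE
  have hAE' : A ≤ E * m₀ := hAE.trans (Nat.le_mul_of_pos_right E hm₀)
  have hKA : 1 ≤ A := by
    have h1 : 0 ≤ Real.log Y := Real.log_nonneg hY
    have h2 : (1 : ℝ) ≤ A := by nlinarith
    exact_mod_cast h2
  have hKE : K ≤ E * m₀ := by
    calc K ≤ A * K := Nat.le_mul_of_pos_left K hKA
      _ ≤ E := hE
      _ ≤ E * m₀ := Nat.le_mul_of_pos_right E hm₀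
  set v := vs s with hv
  have hvs : SuppIn m₀ v := vs_supp hs
  set B := HP (K * m₀) b v with hB
  have e1 : HP (E * m₀) (xx χ J θ b Y A E) v =
      HP (E * m₀) (fun e => ∑ i ∈ J, θ i * xv χ i Y A e) B := by
    unfold xx
    rw [hp_indep_pr (E := E) (E' := E * m₀) (u_supp χ J θ Y A) hAE hAE',
      hp_assoc_pr (u_supp χ J θ Y A) hb hvs hAKm, hB,
      hp_indep_pr (E := E * m₀) (E' := K * m₀) hb hKE (Nat.le_mul_of_pos_right K hm₀)]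
  rw [lin_ww_pr hx hs le_rfl]
  change |(∑ e ∈ Finset.Icc 1 (E * m₀), HP (E * m₀) (xx χ J θ b Y A E) v e / e) - _| ≤ _
  rw [e1]
  have e2 : ∑ e ∈ Finset.Icc 1 (E * m₀),
      HP (E * m₀) (fun e => ∑ i ∈ J, θ i * xv χ i Y A e) B e / e =
      ∑ i ∈ J, θ i * ∑ e ∈ Finset.Icc 1 (E * m₀), HP (E * m₀) (xv χ i Y A) B e / e := by
    simp only [Finset.mul_sum]
    rw [Finset.sum_comm]
    refine Finset.sum_congr rfl fun e _ => ?_
    rw [hp_sum, Finset.sum_div]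
    refine Finset.sum_congr rfl fun i _ => ?_
    ring
  rw [e2, ← Finset.sum_sub_distrib]
  refine (Finset.abs_sum_le_sum_abs _ _).trans ?_
  have hBs : SuppIn (K * m₀) B := hp_supp_pr hb hvs
  have hb0 : 0 ≤ b₀ := (abs_nonneg _).trans (hb₀ 0)
  have hs0 : 0 ≤ s₀ := (abs_nonneg _).trans (hs₀ 0)
  have hBb : ∀ k, |B k| ≤ b₀ * s₀ * m₀ ^ 2 := hp_abs_pr hb hvs hb₀ hs₀
  have hAE2 : A * (K * m₀) ≤ E * m₀ := by
    rw [← mul_assoc]
    exact hAKm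
  have hKm1 : 1 ≤ K * m₀ := Nat.mul_pos hK hm₀
  have key : ∀ i ∈ J, |θ i * (∑ e ∈ Finset.Icc 1 (E * m₀), HP (E * m₀) (xv χ i Y A) B e / e) -
      θ i * (R1 χ P I (K * m₀) B Y ρ i).re| ≤ |θ i| * ((∑ j ∈ J, |c j|) *
        (b₀ * s₀ * m₀ ^ 2) * q ^ 4 * ((K * m₀ : ℕ) : ℝ) ^ 30 * Y ^ (-(1 / 4) : ℝ)) := by
    intro i hi
    have h1 := hc i q χ hχ I P hI hP (K * m₀) hKm1 hKI B (b₀ * s₀ * m₀ ^ 2) hBs hBb Y hY A hA
      (E * m₀) hAE2 ρ hρ hρ1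
    rw [← mul_sub, abs_mul]
    refine mul_le_mul_of_nonneg_left ?_ (abs_nonneg _)
    have h2 : |(∑ e ∈ Finset.Icc 1 (E * m₀), HP (E * m₀) (xv χ i Y A) B e / e) -
        (R1 χ P I (K * m₀) B Y ρ i).re| ≤
        ‖∑ e ∈ Finset.Icc 1 (E * m₀), ((HP (E * m₀) (xv χ i Y A) B e / e : ℝ) : ℂ) -
          R1 χ P I (K * m₀) B Y ρ i‖ := by
      rw [← Complex.ofReal_sum]
      refine le_trans (le_of_eq ?_) (Complex.abs_re_le_norm _)
      rw [Complex.sub_re, Complex.ofReal_re]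
    refine h2.trans (h1.trans ?_)
    have h3 : c i ≤ ∑ j ∈ J, |c j| := (le_abs_self _).trans
      (Finset.single_le_sum (f := fun j => |c j|) (fun j _ => abs_nonneg _) hi)
    have hY0 : 0 ≤ Y ^ (-(1 / 4) : ℝ) := by positivity
    gcongr
  refine (Finset.sum_le_sum key).trans ?_
  rw [← Finset.sum_mul]
  refine le_of_eq ?_
  ring

end Pool.Agent.L3
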