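import Pool.Agent.Lib_helper41.LSP.Defs

/-! LSP3, part S: arithmetic of the diagonal terms. -/

set_option autoImplicit false

namespace Pool.Agent.LSP

open Pool.Agent.LEV Pool.Agent.LVB Pool.Agent.KSL
open Pool.Agent.FG61 (mu phi cc ff AA Lam)

theorem sa_div_mul {m n : ℕ} (h : m.Coprime n) (f : ℕ → ℝ) :
    ∑ i ∈ (m * n).divisors, f i = ∑ a ∈ m.divisors, ∑ b ∈ n.divisors, f (a * b) := by
  rw [Nat.divisors_mul, Finset.mul_def, Finset.sum_image h.mul_injOn_divisors, Finset.sum_product]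

theorem sa_tau_mul {m n : ℕ} (h : m.Coprime n) : tau (m * n) = tau m * tau n := by
  unfold tau
  rw [h.card_divisors_mul]
  push_cast
  rfl

theorem sa_tau_pow {p : ℕ} (hp : p.Prime) (k : ℕ) : tau (p ^ k) = (k : ℝ) + 1 := by
  unfold tau
  rw [Nat.divisors_prime_pow hp, Finset.card_map, Finset.card_range]
  push_cast
  ring

theorem sa_geo (a b : ℕ) : ∑ k ∈ Finset.range (min a b + 1), (((a + b - 2 * k : ℕ) : ℝ) + 1) =
    ((a : ℝ) + 1) * (b + 1) := by
  wlog h : a ≤ b with H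
  · rw [min_comm, add_comm a b, H b a (by omega)]
    ring
  rw [min_eq_left h]
  obtain ⟨c, rfl⟩ := Nat.exists_eq_add_of_le h
  have h1 : ∀ m : ℕ, m ≤ a → ∑ k ∈ Finset.range (m + 1), (((a + (a + c) - 2 * k : ℕ) : ℝ) + 1) =
      ((m : ℝ) + 1) * (2 * a + c + 1 - m) := by
    intro m
    induction m with
    | zero =>
      intro _
      simp
      ring
    | succ m ih =>
      intro hm
      rw [Finset.sum_range_succ, ih (by omega), Nat.cast_sub (by omega)]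
      push_cast
      ring
  rw [h1 a le_rfl]
  push_cast
  ring

/-- the Hecke relation of the divisor function -/
theorem tau_hecke {e : ℕ} (he : 1 ≤ e) : ∀ e' : ℕ, 1 ≤ e' →
    ∑ i ∈ (Nat.gcd e e').divisors, tau (e * e' / i ^ 2) = tau e * tau e' := by
  induction e using Nat.recOnPosPrimePosCoprime with
  | zero => omega
  | one =>
    intro e' _
    simp [tau]
  | prime_pow p a hp ha =>
    intro e' he'
    obtain ⟨b, v, hv, rfl⟩ := Nat.exists_eq_pow_mul_and_not_dvd (by omega : e' ≠ 0) p hp.ne_one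
    have hpv : ∀ k : ℕ, (p ^ k).Coprime v := fun k => Nat.Coprime.pow_left k
      ((Nat.Prime.coprime_iff_not_dvd hp).mpr hv)
    have hg : Nat.gcd (p ^ a) (p ^ b * v) = p ^ (min a b) := by
      rw [Nat.Coprime.gcd_mul_right_cancel_right _ (hpv a).symm]
      rcases le_total a b with h | h
      · rw [min_eq_left h, Nat.gcd_eq_left (Nat.pow_dvd_pow p h)]
      · rw [min_eq_right h, Nat.gcd_eq_right (Nat.pow_dvd_pow p h)]
    rw [hg, Nat.divisors_prime_pow hp, Finset.sum_map]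
    have h1 : ∀ k ∈ Finset.range (min a b + 1),
        tau (p ^ a * (p ^ b * v) / ((⟨fun x => p ^ x, Nat.pow_right_injective hp.two_le⟩ :
          ℕ ↪ ℕ) k) ^ 2) = (((a + b - 2 * k : ℕ) : ℝ) + 1) * tau v := by
      intro k hk
      rw [Finset.mem_range] at hk
      have hk' : 2 * k ≤ a + b := by
        have := min_le_left a b
        have := min_le_right a b
        omega
      have h2 : p ^ a * (p ^ b * v) / (p ^ k) ^ 2 = p ^ (a + b - 2 * k) * v := by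
        have h3 : p ^ a * (p ^ b * v) = (p ^ (a + b - 2 * k) * v) * (p ^ k) ^ 2 := by
          rw [← pow_mul, ← mul_assoc, ← pow_add, mul_right_comm, ← pow_add]
          congr 2
          omega
        rw [h3, Nat.mul_div_cancel _ (pow_pos (pow_pos hp.pos k) 2)]
      show tau (p ^ a * (p ^ b * v) / (p ^ k) ^ 2) = _
      rw [h2, sa_tau_mul (hpv _), sa_tau_pow hp]
    rw [Finset.sum_congr rfl h1, ← Finset.sum_mul, sa_geo, sa_tau_pow hp, sa_tau_mul (hpv b),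
      sa_tau_pow hp]
    ring
  | coprime m n hm hn hmn ihm ihn =>
    intro e' he'
    have hm1 : 1 ≤ m := by omega
    have hn1 : 1 ≤ n := by omega
    have hg : Nat.gcd (m * n) e' = Nat.gcd m e' * Nat.gcd n e' := Nat.Coprime.mul_gcd hmn e'
    have hgc : (Nat.gcd m e').Coprime (Nat.gcd n e') :=
      Nat.Coprime.coprime_dvd_left (Nat.gcd_dvd_left m e')
        (Nat.Coprime.coprime_dvd_right (Nat.gcd_dvd_left n e') hmn)
    rw [hg, sa_div_mul hgc, Finset.sum_comm]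
    have h1 : ∀ b ∈ (Nat.gcd n e').divisors,
        ∑ a ∈ (Nat.gcd m e').divisors, tau (m * n * e' / (a * b) ^ 2) =
          tau m * tau (n * e' / b ^ 2) := by
      intro b hb
      have hb1 := Nat.dvd_of_mem_divisors hb
      have hbn : b ∣ n := hb1.trans (Nat.gcd_dvd_left n e')
      have hbe : b ∣ e' := hb1.trans (Nat.gcd_dvd_right n e')
      have hb0 : 0 < b := Nat.pos_of_mem_divisors hb
      have hb2 : b ^ 2 ∣ n * e' := by
        rw [pow_two]
        exact Nat.mul_dvd_mul hbn hbe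
      obtain ⟨c, hc⟩ := hb2
      have hc1 : 1 ≤ c := by
        rcases Nat.eq_zero_or_pos c with h | h
        · rw [h, mul_zero] at hc
          have := Nat.mul_pos (by omega : 0 < n) (by omega : 0 < e')
          omega
        · exact h
      have hb20 : 0 < b ^ 2 := pow_pos hb0 2
      have e1 : n * e' / b ^ 2 = c := by rw [hc, Nat.mul_div_cancel_left _ hb20]
      have hmb : m.Coprime b := Nat.Coprime.coprime_dvd_right hbn hmn
      have hgg : Nat.gcd m c = Nat.gcd m e' := by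
        have h3 : Nat.gcd m (n * e') = Nat.gcd m e' :=
          Nat.Coprime.gcd_mul_left_cancel_right e' hmn.symm
        have h4 : Nat.gcd m (b ^ 2 * c) = Nat.gcd m c :=
          Nat.Coprime.gcd_mul_left_cancel_right c (Nat.Coprime.pow_left 2 hmb.symm)
        rw [← h3, hc, h4]
      rw [e1, ← ihm hm1 c hc1, hgg]
      refine Finset.sum_congr rfl fun a ha => ?_
      congr 1
      have ha1 := Nat.dvd_of_mem_divisors ha
      rw [mul_pow, mul_assoc, hc, mul_comm (a ^ 2) (b ^ 2), ← Nat.div_div_eq_div_mul]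
      congr 1
      rw [mul_left_comm, Nat.mul_div_cancel_left _ hb20]
    rw [Finset.sum_congr rfl h1, ← Finset.mul_sum, ihn hn1 e' he', sa_tau_mul hmn]
    ring

theorem sa_swap {g : ℕ} (hg : 1 ≤ g) (h : ℕ → ℕ → ℝ) :
    ∑ i ∈ g.divisors, ∑ t ∈ i.divisors, h t i =
      ∑ t ∈ g.divisors, ∑ j ∈ (g / t).divisors, h t (t * j) := by
  rw [Finset.sum_sigma', Finset.sum_sigma']
  refine Finset.sum_nbij' (fun x => ⟨x.2, x.1 / x.2⟩) (fun x => ⟨x.1 * x.2, x.1⟩) ?_ ?_ ?_ ?_ ?_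
  · rintro ⟨i, t⟩ hx
    simp only [Finset.mem_sigma, Nat.mem_divisors] at hx ⊢
    obtain ⟨⟨h1, h2⟩, h3, h4⟩ := hx
    have ht0 : 0 < t := Nat.pos_of_dvd_of_pos h3 (Nat.pos_of_ne_zero h4)
    exact ⟨⟨h3.trans h1, h2⟩, Nat.div_dvd_div h3 h1,
      (Nat.div_pos (Nat.le_of_dvd (by omega) (h3.trans h1)) ht0).ne'⟩
  · rintro ⟨t, j⟩ hx
    simp only [Finset.mem_sigma, Nat.mem_divisors] at hx ⊢
    obtain ⟨⟨h1, h2⟩, h3, h4⟩ := hx
    have h5 : t * j ∣ g := by
      obtain ⟨c, hc⟩ := h3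
      refine ⟨c, ?_⟩
      rw [mul_assoc, ← hc, Nat.mul_div_cancel' h1]
    have h6 : t * j ≠ 0 := fun h => h2 (Nat.eq_zero_of_zero_dvd (h ▸ h5))
    exact ⟨⟨h5, h2⟩, Dvd.intro _ rfl, h6⟩
  · rintro ⟨i, t⟩ hx
    simp only [Finset.mem_sigma, Nat.mem_divisors] at hx ⊢
    rw [Nat.mul_div_cancel' hx.2.1]
  · rintro ⟨t, j⟩ hx
    simp only [Finset.mem_sigma, Nat.mem_divisors] at hx ⊢
    have ht0 : 0 < t := Nat.pos_of_dvd_of_pos hx.1.1 (by omega)
    rw [Nat.mul_div_cancel_left _ ht0]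
  · rintro ⟨i, t⟩ hx
    simp only [Finset.mem_sigma, Nat.mem_divisors] at hx ⊢
    rw [Nat.mul_div_cancel' hx.2.1]

theorem sa_dvd_mul {t j u : ℕ} (hu : 1 ≤ u) (ht : t ∣ u) (hj : j ∈ (u / t).divisors) :
    t * j ∈ u.divisors := by
  rw [Nat.mem_divisors] at hj ⊢
  obtain ⟨c, hc⟩ := hj.1
  exact ⟨⟨c, by rw [mul_assoc, ← hc, Nat.mul_div_cancel' ht]⟩, by omega⟩

theorem sa_pair {u v : ℕ} (hu : 1 ≤ u) (hv : 1 ≤ v) (h : ℕ → ℕ → ℕ → ℝ) :
    ∑ a ∈ u.divisors, ∑ b ∈ v.divisors, ∑ t ∈ (Nat.gcd a b).divisors, h t a b =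
      ∑ t ∈ (Nat.gcd u v).divisors, ∑ a ∈ (u / t).divisors, ∑ b ∈ (v / t).divisors,
        h t (t * a) (t * b) := by
  simp only [Finset.sum_sigma']
  refine Finset.sum_nbij' (fun x => ⟨x.2.2, x.1 / x.2.2, x.2.1 / x.2.2⟩)
    (fun x => ⟨x.1 * x.2.1, x.1 * x.2.2, x.1⟩) ?_ ?_ ?_ ?_ ?_
  · rintro ⟨a, b, t⟩ hx
    simp only [Finset.mem_sigma, Nat.mem_divisors] at hx ⊢
    obtain ⟨⟨h1, h1'⟩, ⟨h2, h2'⟩, h3, h4⟩ := hx
    have h5 : t ∣ a := h3.trans (Nat.gcd_dvd_left a b)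
    have h6 : t ∣ b := h3.trans (Nat.gcd_dvd_right a b)
    have ht0 : 0 < t := Nat.pos_of_dvd_of_pos (h5.trans h1) (by omega)
    refine ⟨⟨Nat.dvd_gcd (h5.trans h1) (h6.trans h2), ?_⟩, ⟨Nat.div_dvd_div h5 h1, ?_⟩,
      Nat.div_dvd_div h6 h2, ?_⟩
    · exact (Nat.gcd_pos_of_pos_left v (by omega)).ne'
    · exact (Nat.div_pos (Nat.le_of_dvd (by omega) (h5.trans h1)) ht0).ne'
    · exact (Nat.div_pos (Nat.le_of_dvd (by omega) (h6.trans h2)) ht0).ne'
  · rintro ⟨t, a, b⟩ hx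
    simp only [Finset.mem_sigma, Nat.mem_divisors] at hx ⊢
    obtain ⟨⟨h1, h1'⟩, ⟨h2, h2'⟩, h3, h4⟩ := hx
    have htu : t ∣ u := h1.trans (Nat.gcd_dvd_left u v)
    have htv : t ∣ v := h1.trans (Nat.gcd_dvd_right u v)
    have h5 := sa_dvd_mul hu htu (Nat.mem_divisors.mpr ⟨h2, h2'⟩)
    have h6 := sa_dvd_mul hv htv (Nat.mem_divisors.mpr ⟨h3, h4⟩)
    refine ⟨⟨Nat.dvd_of_mem_divisors h5, by omega⟩, ⟨Nat.dvd_of_mem_divisors h6, by omega⟩,
      Nat.dvd_gcd (Dvd.intro _ rfl) (Dvd.intro _ rfl), ?_⟩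
    exact (Nat.gcd_pos_of_pos_left _ (Nat.pos_of_mem_divisors h5)).ne'
  · rintro ⟨a, b, t⟩ hx
    simp only [Finset.mem_sigma, Nat.mem_divisors] at hx ⊢
    obtain ⟨⟨h1, h1'⟩, ⟨h2, h2'⟩, h3, h4⟩ := hx
    have h5 : t ∣ a := h3.trans (Nat.gcd_dvd_left a b)
    have h6 : t ∣ b := h3.trans (Nat.gcd_dvd_right a b)
    rw [Nat.mul_div_cancel' h5, Nat.mul_div_cancel' h6]
  · rintro ⟨t, a, b⟩ hx
    simp only [Finset.mem_sigma, Nat.mem_divisors] at hx ⊢
    obtain ⟨⟨h1, h1'⟩, ⟨h2, h2'⟩, h3, h4⟩ := hx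
    have ht0 : 0 < t := Nat.pos_of_dvd_of_pos (h1.trans (Nat.gcd_dvd_left u v)) (by omega)
    rw [Nat.mul_div_cancel_left _ ht0, Nat.mul_div_cancel_left _ ht0]
  · rintro ⟨a, b, t⟩ hx
    simp only [Finset.mem_sigma, Nat.mem_divisors] at hx ⊢
    obtain ⟨⟨h1, h1'⟩, ⟨h2, h2'⟩, h3, h4⟩ := hx
    have h5 : t ∣ a := h3.trans (Nat.gcd_dvd_left a b)
    have h6 : t ∣ b := h3.trans (Nat.gcd_dvd_right a b)
    rw [Nat.mul_div_cancel' h5, Nat.mul_div_cancel' h6]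

theorem sa_quot {u v t j : ℕ} (hu : 1 ≤ u) (ht : t ∣ Nat.gcd u v) :
    u * v / (t * j) ^ 2 = u / t * (v / t) / j ^ 2 := by
  have h1 : t ∣ u := ht.trans (Nat.gcd_dvd_left u v)
  have h2 : t ∣ v := ht.trans (Nat.gcd_dvd_right u v)
  have ht0 : 0 < t := Nat.pos_of_dvd_of_pos h1 (by omega)
  obtain ⟨a, rfl⟩ := h1
  obtain ⟨b, rfl⟩ := h2
  rw [Nat.mul_div_cancel_left _ ht0, Nat.mul_div_cancel_left _ ht0, mul_pow,
    show t * a * (t * b) = t ^ 2 * (a * b) by ring, Nat.mul_div_mul_left _ _ (pow_pos ht0 2)]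

theorem sa_gcd_div {u v t : ℕ} (ht : t ∣ Nat.gcd u v) : Nat.gcd u v / t = Nat.gcd (u / t) (v / t) :=
  (Nat.gcd_div (ht.trans (Nat.gcd_dvd_left u v)) (ht.trans (Nat.gcd_dvd_right u v))).symm

/-- weighted Hecke relation -/
theorem tau_hecke_w {u v : ℕ} (hu : 1 ≤ u) (hv : 1 ≤ v) (f g : ℕ → ℝ)
    (hf : ∀ i, 1 ≤ i → f i = ∑ t ∈ i.divisors, g t) :
    ∑ i ∈ (Nat.gcd u v).divisors, f i * tau (u * v / i ^ 2) =
      ∑ t ∈ (Nat.gcd u v).divisors, g t * (tau (u / t) * tau (v / t)) := by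
  have hg : 1 ≤ Nat.gcd u v := Nat.gcd_pos_of_pos_left v (by omega)
  have h1 : ∑ i ∈ (Nat.gcd u v).divisors, f i * tau (u * v / i ^ 2) =
      ∑ i ∈ (Nat.gcd u v).divisors, ∑ t ∈ i.divisors, g t * tau (u * v / i ^ 2) := by
    refine Finset.sum_congr rfl fun i hi => ?_
    rw [hf i (Nat.pos_of_mem_divisors hi), Finset.sum_mul]
  rw [h1, sa_swap hg (fun t i => g t * tau (u * v / i ^ 2))]
  refine Finset.sum_congr rfl fun t ht => ?_
  have ht1 := Nat.dvd_of_mem_divisors ht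
  have htu : t ∣ u := ht1.trans (Nat.gcd_dvd_left u v)
  have htv : t ∣ v := ht1.trans (Nat.gcd_dvd_right u v)
  have ht0 : 0 < t := Nat.pos_of_mem_divisors ht
  rw [← Finset.mul_sum, sa_gcd_div ht1,
    ← tau_hecke (Nat.div_pos (Nat.le_of_dvd (by omega) htu) ht0) (v / t)
      (Nat.div_pos (Nat.le_of_dvd (by omega) htv) ht0)]
  congr 1
  exact Finset.sum_congr rfl fun j _ => by rw [sa_quot hu ht1]

theorem sa_tau_one (n : ℕ) : tau n = ∑ _d ∈ n.divisors, (1 : ℝ) := by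
  unfold tau
  rw [Finset.sum_const, nsmul_eq_mul, mul_one]

/-- the logarithmic Hecke relation -/
theorem tau_hecke_log {u v : ℕ} (hu : 1 ≤ u) (hv : 1 ≤ v) :
    ∑ i ∈ (Nat.gcd u v).divisors, tau (u * v / i ^ 2) * Real.log ((u * v / i ^ 2 : ℕ) : ℝ) =
      2 * ∑ a ∈ u.divisors, ∑ b ∈ v.divisors, Real.log ((Nat.lcm a b : ℕ) : ℝ) := by
  have hlogd : ∀ n : ℕ, 1 ≤ n → 2 * ∑ d ∈ n.divisors, Real.log (d : ℝ) = tau n * Real.log n := by
    intro n hn
    have h1 : ∑ d ∈ n.divisors, Real.log ((n / d : ℕ) : ℝ) = ∑ d ∈ n.divisors, Real.log (d : ℝ) :=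
      Nat.sum_div_divisors n (fun d => Real.log (d : ℝ))
    have h2 : ∑ d ∈ n.divisors, Real.log ((n / d : ℕ) : ℝ) =
        ∑ d ∈ n.divisors, (Real.log n - Real.log d) := by
      refine Finset.sum_congr rfl fun d hd => ?_
      have hd0 : 0 < d := Nat.pos_of_mem_divisors hd
      rw [Nat.cast_div (Nat.dvd_of_mem_divisors hd) (by exact_mod_cast hd0.ne'),
        Real.log_div (by exact_mod_cast (by omega : n ≠ 0)) (by exact_mod_cast hd0.ne')]
    rw [h2, Finset.sum_sub_distrib, Finset.sum_const, nsmul_eq_mul] at h1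
    unfold tau
    linarith
  -- the logarithm of the divisors
  have h1 : ∑ i ∈ (Nat.gcd u v).divisors, Real.log (i : ℝ) * tau (u * v / i ^ 2) =
      ∑ a ∈ u.divisors, ∑ b ∈ v.divisors, Real.log ((Nat.gcd a b : ℕ) : ℝ) := by
    rw [tau_hecke_w hu hv (fun i => Real.log (i : ℝ)) (fun t => ArithmeticFunction.vonMangoldt t)
      (fun i _ => (ArithmeticFunction.vonMangoldt_sum (n := i)).symm)]
    have h2 : ∑ a ∈ u.divisors, ∑ b ∈ v.divisors, Real.log ((Nat.gcd a b : ℕ) : ℝ) =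
        ∑ a ∈ u.divisors, ∑ b ∈ v.divisors, ∑ t ∈ (Nat.gcd a b).divisors,
          ArithmeticFunction.vonMangoldt t := by
      refine Finset.sum_congr rfl fun a _ => Finset.sum_congr rfl fun b _ => ?_
      exact (ArithmeticFunction.vonMangoldt_sum (n := Nat.gcd a b)).symm
    rw [h2, sa_pair hu hv (fun t _ _ => ArithmeticFunction.vonMangoldt t)]
    refine Finset.sum_congr rfl fun t _ => ?_
    rw [sa_tau_one (u / t), sa_tau_one (v / t), Finset.sum_mul_sum, Finset.mul_sum]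
    refine Finset.sum_congr rfl fun a _ => ?_
    rw [Finset.mul_sum]
    refine Finset.sum_congr rfl fun b _ => by ring
  have h3 : ∑ i ∈ (Nat.gcd u v).divisors, tau (u * v / i ^ 2) * Real.log ((u * v / i ^ 2 : ℕ) : ℝ) =
      (Real.log u + Real.log v) * (tau u * tau v) - 2 * ∑ i ∈ (Nat.gcd u v).divisors,
        Real.log (i : ℝ) * tau (u * v / i ^ 2) := by
    rw [← tau_hecke hu v hv, Finset.mul_sum, Finset.mul_sum, ← Finset.sum_sub_distrib]
    refine Finset.sum_congr rfl fun i hi => ?_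
    have hi0 : 0 < i := Nat.pos_of_mem_divisors hi
    have hi1 := Nat.dvd_of_mem_divisors hi
    have hd : i ^ 2 ∣ u * v := by
      rw [pow_two]
      exact Nat.mul_dvd_mul (hi1.trans (Nat.gcd_dvd_left u v)) (hi1.trans (Nat.gcd_dvd_right u v))
    have hu0 : (u : ℝ) ≠ 0 := by exact_mod_cast (by omega : u ≠ 0)
    have hv0 : (v : ℝ) ≠ 0 := by exact_mod_cast (by omega : v ≠ 0)
    have hi0' : (i : ℝ) ≠ 0 := by exact_mod_cast hi0.ne'
    rw [Nat.cast_div hd (by exact_mod_cast (pow_pos hi0 2).ne')]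
    push_cast
    rw [Real.log_div (mul_ne_zero hu0 hv0) (pow_ne_zero 2 hi0'), Real.log_mul hu0 hv0,
      Real.log_pow]
    push_cast
    ring
  have h4 : ∑ a ∈ u.divisors, ∑ b ∈ v.divisors, Real.log ((Nat.lcm a b : ℕ) : ℝ) =
      ∑ a ∈ u.divisors, ∑ b ∈ v.divisors, (Real.log (a : ℝ) + Real.log (b : ℝ)) -
        ∑ a ∈ u.divisors, ∑ b ∈ v.divisors, Real.log ((Nat.gcd a b : ℕ) : ℝ) := by
    rw [← Finset.sum_sub_distrib]
    refine Finset.sum_congr rfl fun a ha => ?_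
    rw [← Finset.sum_sub_distrib]
    refine Finset.sum_congr rfl fun b hb => ?_
    have ha0 : 0 < a := Nat.pos_of_mem_divisors ha
    have hb0 : 0 < b := Nat.pos_of_mem_divisors hb
    have hg0 : 0 < Nat.gcd a b := Nat.gcd_pos_of_pos_left b ha0
    have hl0 : 0 < Nat.lcm a b := Nat.lcm_pos ha0 hb0
    have h5 : ((Nat.gcd a b : ℕ) : ℝ) * ((Nat.lcm a b : ℕ) : ℝ) = (a : ℝ) * b := by
      exact_mod_cast Nat.gcd_mul_lcm a b
    have h6 := congrArg Real.log h5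
    rw [Real.log_mul (by exact_mod_cast hg0.ne') (by exact_mod_cast hl0.ne'),
      Real.log_mul (by exact_mod_cast ha0.ne') (by exact_mod_cast hb0.ne')] at h6
    linarith
  have h7 : ∑ a ∈ u.divisors, ∑ b ∈ v.divisors, (Real.log (a : ℝ) + Real.log (b : ℝ)) =
      tau v * ∑ a ∈ u.divisors, Real.log (a : ℝ) + tau u * ∑ b ∈ v.divisors, Real.log (b : ℝ) := by
    simp only [Finset.sum_add_distrib, Finset.sum_const, nsmul_eq_mul]
    rw [← Finset.mul_sum]
    rfl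
  rw [h3, h1, h4, h7]
  have hlu := hlogd u hu
  have hlv := hlogd v hv
  linear_combination -(tau v) * hlu - (tau u) * hlv

end Pool.Agent.LSP
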