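import Pool.Agent.Lib_helper98.HK.C2
import Pool.Agent.Lib_helper41.LSP3.SB
import Pool.Agent.Lib_helper41.LSP3.DefsS
import Pool.Agent.Lib_helper41.LSPG.PAL
import Pool.Agent.Lib_helper41.LSPG.PAE
import Pool.Agent.Lib_helper41.LSPG.PER
import Pool.Agent.Lib_helper41.LSPG.CSQ

/-! LSP3, part S: the terms with a common end point do not depend on the height. -/

set_option autoImplicit false

namespace Pool.Agent.LSP

open Pool.Agent.LEV Pool.Agent.LVB Pool.Agent.KSL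
open Pool.Agent.FG61 (mu phi cc ff AA Lam)
open Complex MeasureTheory Filter Topology
open scoped ENNReal

/-- below `yo` the cones are disjoint -/
theorem sc_low {T : ℝ} {ρ : ℝ → ℝ} (hρ : KerL T ρ) {E : ℕ} (hE : 1 ≤ E) {w : ℕ → ℝ}
    (hw : WW E w 0 = 0) {y : ℝ} (hy : 0 < y) (h : y < yo T E) :
    ∑' n : ℕ, kk ρ (((n : ℝ) + 1) * y) * WW E w (n + 1) ^ 2 =
      Cr ρ / y * ∑ q ∈ Finset.Icc 1 E, phi q * w q ^ 2 := by
  set Y : ℝ := 1 + y + 2 / y with hYdef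
  have hY0 : 0 < Y := by positivity
  have hyY : y < Y := by
    have : 0 < 2 / y := by positivity
    rw [hYdef]
    linarith
  have hYy : 1 < Y * y := by
    have : Y * y = y + y ^ 2 + 2 := by
      rw [hYdef]
      field_simp
    rw [this]
    nlinarith
  have h1 : 1 / (((1 : ℕ) : ℝ) * Y) < y := by
    rw [Nat.cast_one, one_mul, div_lt_iff₀ hY0]
    linarith
  have hP := (per_parseval hρ E w hy).2
  rw [hw] at hP
  have hL := pa_low hρ (N := 1) le_rfl hE w Y hy h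
  have hH : ∫ x in (0 : ℝ)..1, ‖∑' n : ℤ, KY ρ 1 E w Y (pt (x + n) y)‖ ^ 2 =
      ∫ x in (0 : ℝ)..1, ‖∑' n : ℤ, KC ρ E w (pt (x + n) y)‖ ^ 2 := by
    refine intervalIntegral.integral_congr fun x _ => ?_
    simp only [pa_high ρ (N := 1) le_rfl E w hy h1 hyY]
  rw [← hH, hL] at hP
  have hc : ∀ q ∈ Finset.Icc 1 E, ∀ l : ℝ, ∫ x : ℝ, ‖coneY ρ 1 q l Y (pt x y)‖ ^ 2 = Cr ρ / y := by
    intro q hq l
    have hq1 : (1 : ℝ) ≤ q := by exact_mod_cast (Finset.mem_Icc.mp hq).1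
    simp only [csq_val ρ 1 q l Y _ hy]
    rw [csq_fib ρ hy hyY]
    unfold Cr
    rw [← integral_div]
    refine integral_congr_ae (Eventually.of_forall fun t => ?_)
    simp only
    unfold csq_f
    have hq2 : (1 : ℝ) ≤ (q : ℝ) ^ 2 := by nlinarith
    have ht : (1 : ℝ) ≤ 1 + t ^ 2 := by nlinarith [sq_nonneg t]
    have h3 : 1 < ((1 : ℕ) : ℝ) * (q : ℝ) ^ 2 * Y * y * (1 + t ^ 2) := by
      calc (1 : ℝ) < Y * y := hYy
        _ = 1 * 1 * Y * y * 1 := by ring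
        _ ≤ ((1 : ℕ) : ℝ) * (q : ℝ) ^ 2 * Y * y * (1 + t ^ 2) := by
          push_cast
          gcongr
    rw [if_pos h3]
  have hS : ∑ q ∈ Finset.Icc 1 E, w q ^ 2 * ∑ j ∈ RR q,
      ∫ x : ℝ, ‖coneY ρ 1 q ((j : ℝ) / q) Y (pt x y)‖ ^ 2 =
      Cr ρ / y * ∑ q ∈ Finset.Icc 1 E, phi q * w q ^ 2 := by
    rw [Finset.mul_sum]
    refine Finset.sum_congr rfl fun q hq => ?_
    have h5 : ∑ j ∈ RR q, ∫ x : ℝ, ‖coneY ρ 1 q ((j : ℝ) / q) Y (pt x y)‖ ^ 2 =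
        phi q * (Cr ρ / y) := by
      rw [Finset.sum_congr rfl (fun (j : ℕ) _ => hc q hq ((j : ℝ) / q)), Finset.sum_const,
        nsmul_eq_mul, PAE_card]
    rw [h5]
    ring
  rw [hS] at hP
  rw [hP]
  simp [kk]

/-- the form at height `y` -/
noncomputable def shY (ρ : ℝ → ℝ) (y : ℝ) (E : ℕ) (x : ℕ → ℝ) (N : ℕ) : ℝ :=
  2 * Real.pi * (∫ s in Set.Ioi y, ∑' n : ℕ,
      kk ρ (((n : ℝ) + 1) * s) * WW E (wX E x) (n + 1) ^ 2) +
    Real.pi * ∑ q ∈ Finset.Icc 1 E, phi q * wX E x q ^ 2 *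
      (Cr ρ * (2 * Real.log y + Real.log ((N : ℝ) * (q : ℝ) ^ 2)) + Cl ρ)

theorem shY_yo (ρ : ℝ → ℝ) (T : ℝ) (E : ℕ) (x : ℕ → ℝ) (N : ℕ) :
    shY ρ (yo T E) E x N = sh ρ T E x N := rfl

theorem sc_yo {T : ℝ} (hT : 1 ≤ T) {E : ℕ} (hE : 1 ≤ E) : 0 < yo T E := by
  unfold yo
  have : (0 : ℝ) < E := by exact_mod_cast hE
  positivity

theorem shY_const {T : ℝ} {ρ : ℝ → ℝ} (hρ : KerL T ρ) {E : ℕ} (hE : 1 ≤ E) {x : ℕ → ℝ}
    (hw : WW E (wX E x) 0 = 0) {y : ℝ} (hy : 0 < y) (h : y ≤ yo T E) (N : ℕ) :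
    shY ρ y E x N = sh ρ T E x N := by
  rw [← shY_yo]
  set F : ℝ → ℝ := fun s => ∑' n : ℕ, kk ρ (((n : ℝ) + 1) * s) * WW E (wX E x) (n + 1) ^ 2 with hF
  obtain ⟨M, hM, hW⟩ := hk_wwb E (wX E x)
  have hi : IntegrableOn F (Set.Ioi y) := by
    have := hk_intg hρ (a := fun n => WW E (wX E x) n ^ 2) (M := M ^ 2) (by
      intro n
      rw [abs_pow]
      exact pow_le_pow_left₀ (abs_nonneg _) (hW n) 2) hy
    exact this
  have hsplit : ∫ s in Set.Ioi y, F s = (∫ s in Set.Ioc y (yo T E), F s) +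
      ∫ s in Set.Ioi (yo T E), F s := by
    have h2 := setIntegral_union (μ := volume) (f := F) (s := Set.Ioc y (yo T E))
      (t := Set.Ioi (yo T E)) (Set.Ioc_disjoint_Ioi le_rfl) measurableSet_Ioi
      (hi.mono_set Set.Ioc_subset_Ioi_self) (hi.mono_set (Set.Ioi_subset_Ioi h))
    rw [Set.Ioc_union_Ioi_eq_Ioi h] at h2
    exact h2
  set S : ℝ := ∑ q ∈ Finset.Icc 1 E, phi q * wX E x q ^ 2 with hS
  have hlow : ∫ s in Set.Ioc y (yo T E), F s =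
      Cr ρ * S * (Real.log (yo T E) - Real.log y) := by
    rw [integral_Ioc_eq_integral_Ioo]
    have h3 : ∫ s in Set.Ioo y (yo T E), F s = ∫ s in Set.Ioo y (yo T E), (Cr ρ * S) * s⁻¹ := by
      refine setIntegral_congr_fun measurableSet_Ioo fun s hs => ?_
      have := sc_low hρ hE hw (hy.trans hs.1) hs.2
      show (∑' n : ℕ, kk ρ (((n : ℝ) + 1) * s) * WW E (wX E x) (n + 1) ^ 2) = _
      rw [this]
      ring
    rw [h3, ← integral_Ioc_eq_integral_Ioo, ← intervalIntegral.integral_of_le h,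
      intervalIntegral.integral_const_mul, integral_inv_of_pos hy (hy.trans_le h),
      Real.log_div (hy.trans_le h).ne' hy.ne']
  have hq : ∀ z : ℝ, ∑ q ∈ Finset.Icc 1 E, phi q * wX E x q ^ 2 *
      (Cr ρ * (2 * Real.log z + Real.log ((N : ℝ) * (q : ℝ) ^ 2)) + Cl ρ) =
      2 * Cr ρ * S * Real.log z + ∑ q ∈ Finset.Icc 1 E, phi q * wX E x q ^ 2 *
      (Cr ρ * Real.log ((N : ℝ) * (q : ℝ) ^ 2) + Cl ρ) := by
    intro z
    rw [hS, Finset.mul_sum, Finset.sum_mul, ← Finset.sum_add_distrib]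
    exact Finset.sum_congr rfl fun q _ => by ring
  unfold shY
  rw [hq y, hq (yo T E)]
  change 2 * Real.pi * (∫ s in Set.Ioi y, F s) + _ = 2 * Real.pi * (∫ s in Set.Ioi (yo T E), F s) + _
  rw [hsplit, hlow]
  ring

/-- the form in the coordinates `V` -/
theorem shY_eq {T : ℝ} {ρ : ℝ → ℝ} (hρ : KerL T ρ) {E : ℕ} (x : ℕ → ℝ) {N : ℕ}
    (hN : 1 ≤ N) {y : ℝ} (hy : 0 < y) : shY ρ y E x N =
      ∑ d ∈ Finset.Icc 1 E, ∑ e ∈ Finset.Icc 1 E, VX E x d * VX E x e *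
        beK ρ y (cK ρ y N) 1 (Nat.gcd d e) (Nat.lcm d e) := by
  have h1 := hk_first hρ hy E x x
  have h0 : ∫ s in Set.Ioi y, ∑' n : ℕ, kk ρ (((n : ℝ) + 1) * s) * WW E (wX E x) (n + 1) ^ 2 =
      ∫ s in Set.Ioi y, ∑' n : ℕ, hkK ρ n s *
        (WW E (wX E x) (n + 1) * WW E (wX E x) (n + 1)) := by
    refine setIntegral_congr_fun measurableSet_Ioi fun s _ => ?_
    refine tsum_congr fun n => ?_
    rw [hkK_kk, pow_two]
  have h3 : ∑ q ∈ Finset.Icc 1 E, phi q * wX E x q ^ 2 *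
      (Cr ρ * (2 * Real.log y + Real.log ((N : ℝ) * (q : ℝ) ^ 2)) + Cl ρ) =
      ∑ q ∈ Finset.Icc 1 E, phi q * (wX E x q * wX E x q) *
      (Cr ρ * (2 * Real.log y + Real.log ((N : ℝ) * (q : ℝ) ^ 2)) + Cl ρ) :=
    Finset.sum_congr rfl fun q _ => by ring
  unfold shY
  rw [h0, h1, h3, hk_second (E := E) x x (fun q => Cr ρ * (2 * Real.log y +
    Real.log ((N : ℝ) * (q : ℝ) ^ 2)) + Cl ρ), Finset.mul_sum, Finset.mul_sum,
    ← Finset.sum_add_distrib]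
  apply Finset.sum_congr rfl
  intro d hd
  rw [Finset.mul_sum, Finset.mul_sum, ← Finset.sum_add_distrib]
  apply Finset.sum_congr rfl
  intro e he
  have h2 : ∑ q ∈ (Nat.gcd d e).divisors, phi q * (Cr ρ * (2 * Real.log y +
      Real.log ((N : ℝ) * (q : ℝ) ^ 2)) + Cl ρ) =
      (Nat.gcd d e : ℝ) * cK ρ y N + 2 * Cr ρ * Phl (Nat.gcd d e) := by
    rw [← hk_phi_sum (Nat.gcd d e), Finset.sum_mul]
    unfold Phl
    rw [Finset.mul_sum, ← Finset.sum_add_distrib]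
    apply Finset.sum_congr rfl
    intro q hq
    have hq0 : (0 : ℝ) < q := by exact_mod_cast Nat.pos_of_mem_divisors hq
    have hN0 : (0 : ℝ) < N := by exact_mod_cast hN
    rw [Real.log_mul hN0.ne' (by positivity), Real.log_pow]
    unfold cK
    push_cast
    ring
  rw [h2]
  unfold beK
  rw [one_mul]
  ring

theorem beK_lim {T : ℝ} {ρ : ℝ → ℝ} (hρ : KerL T ρ) {N g L : ℕ} (hL : 1 ≤ L) :
    Tendsto (fun y => beK ρ y (cK ρ y N) 1 g L) (𝓝[>] 0)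
      (𝓝 (Real.pi * Cr ρ * (g * Real.log N - 2 * (g * Real.log L) + 2 * Phl g) + g * cR ρ)) := by
  have hL0 : (0 : ℝ) < L := by exact_mod_cast hL
  have h1 : Tendsto (fun y : ℝ => (L : ℝ) * y) (𝓝[>] 0) (𝓝[>] 0) := by
    refine tendsto_nhdsWithin_iff.mpr ⟨?_, ?_⟩
    · have : Tendsto (fun y : ℝ => (L : ℝ) * y) (𝓝 0) (𝓝 ((L : ℝ) * 0)) :=
        (continuous_const.mul continuous_id).tendsto 0
      rw [mul_zero] at this
      exact this.mono_left nhdsWithin_le_nhds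
    · filter_upwards [self_mem_nhdsWithin] with y hy
      exact mul_pos hL0 hy
  have h2 := (Kk_lim hρ).comp h1
  have h3 := (h2.const_mul (2 * Real.pi * (g : ℝ))).add_const
    (Real.pi * (g * (Cr ρ * (Real.log N - 2 * Real.log L) + Cl ρ) + 2 * Cr ρ * Phl g))
  have e1 : 2 * Real.pi * (g : ℝ) * ((∫ u in Set.Ioi (0 : ℝ), kk ρ u * Real.log u) +
      Real.eulerMascheroniConstant * Cr ρ) +
      (Real.pi * (g * (Cr ρ * (Real.log N - 2 * Real.log L) + Cl ρ) + 2 * Cr ρ * Phl g)) =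
      Real.pi * Cr ρ * (g * Real.log N - 2 * (g * Real.log L) + 2 * Phl g) + g * cR ρ := by
    unfold cR
    ring
  rw [e1] at h3
  refine h3.congr' ?_
  filter_upwards [self_mem_nhdsWithin] with y hy
  have hy0 : (0 : ℝ) < y := hy
  simp only [Function.comp]
  unfold beK cK
  rw [Real.log_mul hL0.ne' hy0.ne', one_mul]
  ring

/-- the exact formula in the coordinates `V` -/
theorem sh_V {T : ℝ} {ρ : ℝ → ℝ} (hρ : KerL T ρ) {E : ℕ} (hE : 1 ≤ E) {x : ℕ → ℝ}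
    (hw : WW E (wX E x) 0 = 0) {N : ℕ} (hN : 1 ≤ N) : sh ρ T E x N =
      ∑ d ∈ Finset.Icc 1 E, ∑ e ∈ Finset.Icc 1 E, VX E x d * VX E x e *
        (Real.pi * Cr ρ * ((Nat.gcd d e : ℝ) * Real.log N -
          2 * ((Nat.gcd d e : ℝ) * Real.log (Nat.lcm d e)) + 2 * Phl (Nat.gcd d e)) +
          (Nat.gcd d e : ℝ) * cR ρ) := by
  have hyo := sc_yo hρ.T1 hE
  have h1 : Tendsto (fun y => ∑ d ∈ Finset.Icc 1 E, ∑ e ∈ Finset.Icc 1 E, VX E x d * VX E x e *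
        beK ρ y (cK ρ y N) 1 (Nat.gcd d e) (Nat.lcm d e)) (𝓝[>] 0)
      (𝓝 (∑ d ∈ Finset.Icc 1 E, ∑ e ∈ Finset.Icc 1 E, VX E x d * VX E x e *
        (Real.pi * Cr ρ * ((Nat.gcd d e : ℝ) * Real.log N -
          2 * ((Nat.gcd d e : ℝ) * Real.log (Nat.lcm d e)) + 2 * Phl (Nat.gcd d e)) +
          (Nat.gcd d e : ℝ) * cR ρ))) := by
    refine tendsto_finsetSum _ fun d hd => tendsto_finsetSum _ fun e he => ?_
    rw [Finset.mem_Icc] at hd he
    exact (beK_lim hρ (Nat.lcm_pos hd.1 he.1)).const_mul _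
  have h2 : Tendsto (fun y => ∑ d ∈ Finset.Icc 1 E, ∑ e ∈ Finset.Icc 1 E, VX E x d * VX E x e *
        beK ρ y (cK ρ y N) 1 (Nat.gcd d e) (Nat.lcm d e)) (𝓝[>] 0) (𝓝 (sh ρ T E x N)) := by
    refine tendsto_const_nhds.congr' ?_
    filter_upwards [Ioo_mem_nhdsGT hyo] with y hy
    rw [← shY_eq hρ x hN hy.1, shY_const hρ hE hw hy.1 hy.2.le]
  exact tendsto_nhds_unique h2 h1

end Pool.Agent.LSP
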