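import Pool.Agent.Lib_helper41.LSP3.SA
import Pool.Agent.Lib_helper41.LSP3.SC

/-! LSP3, part S: the exact formula for the terms with a common end point. -/

set_option autoImplicit false

namespace Pool.Agent.LSP

open Pool.Agent.LEV Pool.Agent.LVB Pool.Agent.KSL
open Pool.Agent.FG61 (mu phi cc ff AA Lam)
open Complex MeasureTheory Filter Topology
open scoped ENNReal

/-- multiples of `d` -/
theorem sd_mult {E d : ℕ} (hd : 1 ≤ d) (G : ℕ → ℝ) (hG : ∀ e, E < e → G e = 0) :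
    ∑ e ∈ (Finset.Icc 1 E).filter (fun e => d ∣ e), G e = ∑ a ∈ Finset.Icc 1 E, G (d * a) := by
  have h := cnv_mult hd (fun e => (G e : ℂ)) (by
    intro e he
    rw [hG e he]
    simp)
  exact_mod_cast h

/-- a sum over the coefficients of a product -/
theorem cb_sum {E : ℕ} {x y : ℕ → ℝ} (hx0 : ∀ e, E < e → x e = 0) (hy0 : ∀ e, E < e → y e = 0)
    (T : ℕ → ℝ) : ∑ n ∈ Finset.Icc 1 (E ^ 2), CB E x y n * T n =
      ∑ e ∈ Finset.Icc 1 E, ∑ e' ∈ Finset.Icc 1 E, x e / e * (y e' / e') *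
        ∑ i ∈ (Nat.gcd e e').divisors, (i : ℝ) * T (e * e' / i ^ 2) := by
  -- right side
  have hL : ∑ e ∈ Finset.Icc 1 E, ∑ e' ∈ Finset.Icc 1 E, x e / e * (y e' / e') *
        ∑ i ∈ (Nat.gcd e e').divisors, (i : ℝ) * T (e * e' / i ^ 2) =
      ∑ j ∈ Finset.Icc 1 E, ∑ a ∈ Finset.Icc 1 E, ∑ b ∈ Finset.Icc 1 E,
        (x (j * a) / ((j * a : ℕ) : ℝ) * (y (j * b) / ((j * b : ℕ) : ℝ))) *
          ((j : ℝ) * T (a * b)) := by
    have h1 : ∀ e ∈ Finset.Icc 1 E, ∀ e' ∈ Finset.Icc 1 E,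
        x e / e * (y e' / e') * ∑ i ∈ (Nat.gcd e e').divisors, (i : ℝ) * T (e * e' / i ^ 2) =
        ∑ j ∈ Finset.Icc 1 E, if j ∣ e then (if j ∣ e' then
          (x e / e * (y e' / e')) * ((j : ℝ) * T (e / j * (e' / j))) else 0) else 0 := by
      intro e he e' he'
      rw [Finset.mul_sum]
      have h2 : (Nat.gcd e e').divisors =
          (Finset.Icc 1 E).filter (fun j => j ∣ e ∧ j ∣ e') := by
        rw [Finset.mem_Icc] at he he'
        ext d
        have h0' : Nat.gcd e e' ≠ 0 := (Nat.gcd_pos_of_pos_left _ (by omega)).ne'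
        simp only [Nat.mem_divisors, Finset.mem_filter, Nat.dvd_gcd_iff, Finset.mem_Icc]
        constructor
        · rintro ⟨⟨h3, h4⟩, _⟩
          have h5 : 1 ≤ d := Nat.pos_of_dvd_of_pos h3 (by omega)
          have h6 : d ≤ e := Nat.le_of_dvd (by omega) h3
          exact ⟨⟨h5, by omega⟩, h3, h4⟩
        · rintro ⟨_, h3, h4⟩
          exact ⟨⟨h3, h4⟩, h0'⟩
      rw [h2, Finset.sum_filter]
      refine Finset.sum_congr rfl fun j hj => ?_
      have hj0 : 0 < j := (Finset.mem_Icc.mp hj).1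
      by_cases h3 : j ∣ e
      · by_cases h4 : j ∣ e'
        · have h5 : e * e' / j ^ 2 = e / j * (e' / j) := by
            obtain ⟨a, rfl⟩ := h3
            obtain ⟨b, rfl⟩ := h4
            rw [Nat.mul_div_cancel_left _ hj0, Nat.mul_div_cancel_left _ hj0,
              show j * a * (j * b) = j ^ 2 * (a * b) by ring,
              Nat.mul_div_cancel_left _ (pow_pos hj0 2)]
          simp [h3, h4, h5]
        · simp [h3, h4]
      · simp [h3]
    rw [Finset.sum_congr rfl fun e he => Finset.sum_congr rfl fun e' he' => h1 e he e' he']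
    have h2 : ∀ e ∈ Finset.Icc 1 E, ∑ e' ∈ Finset.Icc 1 E, ∑ j ∈ Finset.Icc 1 E,
        (if j ∣ e then (if j ∣ e' then
          (x e / e * (y e' / e')) * ((j : ℝ) * T (e / j * (e' / j))) else 0) else 0) =
        ∑ j ∈ Finset.Icc 1 E, ∑ e' ∈ Finset.Icc 1 E, (if j ∣ e then (if j ∣ e' then
          (x e / e * (y e' / e')) * ((j : ℝ) * T (e / j * (e' / j))) else 0) else 0) :=
      fun e _ => Finset.sum_comm
    rw [Finset.sum_congr rfl h2, Finset.sum_comm]
    refine Finset.sum_congr rfl fun j hjm => ?_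
    rw [Finset.mem_Icc] at hjm
    have hj0 : 0 < j := by omega
    have h3 : ∀ e ∈ Finset.Icc 1 E, ∑ e' ∈ Finset.Icc 1 E, (if j ∣ e then (if j ∣ e' then
          (x e / e * (y e' / e')) * ((j : ℝ) * T (e / j * (e' / j))) else 0) else 0) =
        if j ∣ e then ∑ b ∈ Finset.Icc 1 E, (x e / e * (y (j * b) / ((j * b : ℕ) : ℝ))) *
          ((j : ℝ) * T (e / j * b)) else 0 := by
      intro e _
      split_ifs with h4
      · rw [← Finset.sum_filter, sd_mult hjm.1]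
        · refine Finset.sum_congr rfl fun b _ => ?_
          rw [Nat.mul_div_cancel_left _ hj0]
        · intro e' he'
          rw [hy0 e' he']
          simp
      · simp
    rw [Finset.sum_congr rfl h3, ← Finset.sum_filter, sd_mult hjm.1]
    · refine Finset.sum_congr rfl fun a _ => ?_
      refine Finset.sum_congr rfl fun b _ => ?_
      rw [Nat.mul_div_cancel_left _ hj0]
    · intro e he
      rw [hx0 e he]
      simp
  rw [hL]
  have hR : ∑ n ∈ Finset.Icc 1 (E ^ 2), CB E x y n * T n =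
      ∑ j ∈ Finset.Icc 1 E, ∑ n ∈ Finset.Icc 1 (E ^ 2), ∑ p ∈ n.divisorsAntidiagonal,
        (x (j * p.1) / ((j * p.1 : ℕ) : ℝ) * (y (j * p.2) / ((j * p.2 : ℕ) : ℝ))) *
          ((j : ℝ) * T (p.1 * p.2)) := by
    rw [Finset.sum_comm]
    refine Finset.sum_congr rfl fun n _ => ?_
    unfold CB
    rw [Finset.sum_mul]
    refine Finset.sum_congr rfl fun j hjm => ?_
    rw [Finset.mem_Icc] at hjm
    rw [Finset.mul_sum, Finset.sum_mul]
    refine Finset.sum_congr rfl fun p hp => ?_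
    rw [Nat.mem_divisorsAntidiagonal] at hp
    rw [hp.1]
    have hj0 : (j : ℝ) ≠ 0 := by exact_mod_cast (by omega : j ≠ 0)
    have hn0 : (n : ℝ) ≠ 0 := by exact_mod_cast hp.2
    have hp0 : p.1 * p.2 ≠ 0 := by rw [hp.1]; exact hp.2
    have hp1 : (p.1 : ℝ) ≠ 0 := by exact_mod_cast (left_ne_zero_of_mul hp0)
    have hp2 : (p.2 : ℝ) ≠ 0 := by exact_mod_cast (right_ne_zero_of_mul hp0)
    have hnp : (n : ℝ) = p.1 * p.2 := by rw [← hp.1]; push_cast; ring
    push_cast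
    rw [hnp]
    field_simp
  rw [hR]
  refine Finset.sum_congr rfl fun j hjm => ?_
  rw [Finset.mem_Icc] at hjm
  -- regroup
  rw [← Finset.sum_product']
  have hmaps : ∀ p ∈ Finset.Icc 1 E ×ˢ Finset.Icc 1 E, p.1 * p.2 ∈ Finset.Icc 1 (E ^ 2) := by
    intro p hp
    rw [Finset.mem_product, Finset.mem_Icc, Finset.mem_Icc] at hp
    rw [Finset.mem_Icc]
    exact ⟨Nat.mul_pos hp.1.1 hp.2.1, by rw [pow_two]; exact Nat.mul_le_mul hp.1.2 hp.2.2⟩
  rw [← Finset.sum_fiberwise_of_maps_to hmaps]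
  refine Finset.sum_congr rfl fun n hn => ?_
  rw [Finset.mem_Icc] at hn
  symm
  refine Finset.sum_subset ?_ ?_
  · intro p hp
    simp only [Finset.mem_filter, Finset.mem_product, Finset.mem_Icc] at hp
    rw [Nat.mem_divisorsAntidiagonal]
    exact ⟨hp.2, by omega⟩
  · intro p hp hp'
    rw [Nat.mem_divisorsAntidiagonal] at hp
    simp only [Finset.mem_filter, Finset.mem_product, Finset.mem_Icc, not_and] at hp'
    have hp0 : p.1 * p.2 ≠ 0 := by rw [hp.1]; exact hp.2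
    have hp1 : 1 ≤ p.1 := Nat.pos_of_ne_zero (left_ne_zero_of_mul hp0)
    have hp2 : 1 ≤ p.2 := Nat.pos_of_ne_zero (right_ne_zero_of_mul hp0)
    have h6 : E < p.1 ∨ E < p.2 := by
      by_contra hcon
      push Not at hcon
      exact hp' ⟨⟨hp1, hcon.1⟩, hp2, hcon.2⟩ hp.1
    rcases h6 with h6 | h6
    · have h7 : E < j * p.1 := lt_of_lt_of_le h6 (Nat.le_mul_of_pos_left _ (by omega))
      rw [hx0 _ h7]
      simp
    · have h7 : E < j * p.2 := lt_of_lt_of_le h6 (Nat.le_mul_of_pos_left _ (by omega))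
      rw [hy0 _ h7]
      simp

/-- a form in the coordinates `V` -/
theorem vx_pair (E : ℕ) (x y : ℕ → ℝ) (G : ℕ → ℕ → ℝ) :
    ∑ d ∈ Finset.Icc 1 E, ∑ d' ∈ Finset.Icc 1 E, VX E x d * VX E y d' * G d d' =
      ∑ e ∈ Finset.Icc 1 E, ∑ e' ∈ Finset.Icc 1 E, x e / e * (y e' / e') *
        ∑ d ∈ e.divisors, ∑ d' ∈ e'.divisors, G d d' := by
  have h1 : ∀ (z : ℕ → ℝ) (c : ℕ → ℝ), ∑ d ∈ Finset.Icc 1 E, VX E z d * c d =
      ∑ e ∈ Finset.Icc 1 E, z e / e * ∑ d ∈ e.divisors, c d := by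
    intro z c
    have h := wwf_swap E (fun e => z e / e) c (fun _ _ => 1)
    simp only [mul_one, one_mul] at h
    exact h
  have h2 : ∀ d ∈ Finset.Icc 1 E, ∑ d' ∈ Finset.Icc 1 E, VX E x d * VX E y d' * G d d' =
      VX E x d * ∑ e' ∈ Finset.Icc 1 E, y e' / e' * ∑ d' ∈ e'.divisors, G d d' := by
    intro d _
    rw [← h1 y (fun d' => G d d'), Finset.mul_sum]
    exact Finset.sum_congr rfl fun d' _ => by ring
  rw [Finset.sum_congr rfl h2, h1 x]
  refine Finset.sum_congr rfl fun e _ => ?_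
  rw [Finset.sum_comm, Finset.mul_sum]
  refine Finset.sum_congr rfl fun e' _ => ?_
  rw [← Finset.mul_sum, mul_assoc]

/-- `∑ i τ(uv/i²)` -/
theorem sd_tau {u v : ℕ} (hu : 1 ≤ u) (hv : 1 ≤ v) :
    ∑ i ∈ (Nat.gcd u v).divisors, (i : ℝ) * tau (u * v / i ^ 2) =
      ∑ d ∈ u.divisors, ∑ d' ∈ v.divisors, (Nat.gcd d d' : ℝ) := by
  rw [tau_hecke_w hu hv (fun i => (i : ℝ)) (fun t => phi t) (fun i _ => (hk_phi_sum i).symm)]
  have h2 : ∑ a ∈ u.divisors, ∑ b ∈ v.divisors, ((Nat.gcd a b : ℕ) : ℝ) =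
      ∑ a ∈ u.divisors, ∑ b ∈ v.divisors, ∑ t ∈ (Nat.gcd a b).divisors, phi t := by
    refine Finset.sum_congr rfl fun a _ => Finset.sum_congr rfl fun b _ => ?_
    exact (hk_phi_sum (Nat.gcd a b)).symm
  rw [h2, sa_pair hu hv (fun t _ _ => phi t)]
  refine Finset.sum_congr rfl fun t _ => ?_
  rw [sa_tau_one (u / t), sa_tau_one (v / t), Finset.sum_mul_sum, Finset.mul_sum]
  refine Finset.sum_congr rfl fun a _ => ?_
  rw [Finset.mul_sum]
  refine Finset.sum_congr rfl fun b _ => by ring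

/-- `∑ i τ(uv/i²) log (uv/i²)` -/
theorem sd_log {u v : ℕ} (hu : 1 ≤ u) (hv : 1 ≤ v) :
    ∑ i ∈ (Nat.gcd u v).divisors, (i : ℝ) * (tau (u * v / i ^ 2) *
      Real.log ((u * v / i ^ 2 : ℕ) : ℝ)) =
      2 * ∑ d ∈ u.divisors, ∑ d' ∈ v.divisors, ((Nat.gcd d d' : ℝ) * Real.log (Nat.lcm d d') -
        Phl (Nat.gcd d d')) := by
  have hg : 1 ≤ Nat.gcd u v := Nat.gcd_pos_of_pos_left v (by omega)
  have h1 : ∑ i ∈ (Nat.gcd u v).divisors, (i : ℝ) * (tau (u * v / i ^ 2) *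
      Real.log ((u * v / i ^ 2 : ℕ) : ℝ)) =
      ∑ i ∈ (Nat.gcd u v).divisors, ∑ t ∈ i.divisors, phi t * (tau (u * v / i ^ 2) *
      Real.log ((u * v / i ^ 2 : ℕ) : ℝ)) := by
    refine Finset.sum_congr rfl fun i _ => ?_
    rw [← Finset.sum_mul, hk_phi_sum]
  rw [h1, sa_swap hg (fun t i => phi t * (tau (u * v / i ^ 2) *
      Real.log ((u * v / i ^ 2 : ℕ) : ℝ)))]
  have h2 : ∀ t ∈ (Nat.gcd u v).divisors, ∑ j ∈ (Nat.gcd u v / t).divisors,
      phi t * (tau (u * v / (t * j) ^ 2) * Real.log ((u * v / (t * j) ^ 2 : ℕ) : ℝ)) =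
      ∑ a ∈ (u / t).divisors, ∑ b ∈ (v / t).divisors,
        2 * (phi t * (Real.log (Nat.lcm (t * a) (t * b)) - Real.log t)) := by
    intro t ht
    have htd := Nat.dvd_of_mem_divisors ht
    have ht0 : 0 < t := Nat.pos_of_mem_divisors ht
    have hut : 1 ≤ u / t := Nat.div_pos (Nat.le_of_dvd hu (htd.trans (Nat.gcd_dvd_left u v))) ht0
    have hvt : 1 ≤ v / t := Nat.div_pos (Nat.le_of_dvd hv (htd.trans (Nat.gcd_dvd_right u v))) ht0
    rw [← Finset.mul_sum]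
    have h3 : ∀ j ∈ (Nat.gcd u v / t).divisors,
        tau (u * v / (t * j) ^ 2) * Real.log ((u * v / (t * j) ^ 2 : ℕ) : ℝ) =
        tau (u / t * (v / t) / j ^ 2) * Real.log ((u / t * (v / t) / j ^ 2 : ℕ) : ℝ) := by
      intro j _
      rw [sa_quot hu htd]
    rw [Finset.sum_congr rfl h3, sa_gcd_div htd, tau_hecke_log hut hvt]
    rw [← mul_assoc, Finset.mul_sum]
    refine Finset.sum_congr rfl fun a ha => ?_
    rw [Finset.mul_sum]
    refine Finset.sum_congr rfl fun b hb => ?_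
    have hl0 : 0 < Nat.lcm a b := Nat.lcm_pos (Nat.pos_of_mem_divisors ha) (Nat.pos_of_mem_divisors hb)
    rw [Nat.lcm_mul_left, Nat.cast_mul, Real.log_mul (by exact_mod_cast ht0.ne')
      (by exact_mod_cast hl0.ne')]
    ring
  rw [Finset.sum_congr rfl h2, ← sa_pair hu hv (fun t a b =>
    2 * (phi t * (Real.log (Nat.lcm a b) - Real.log t))), Finset.mul_sum]
  refine Finset.sum_congr rfl fun a _ => ?_
  rw [Finset.mul_sum]
  refine Finset.sum_congr rfl fun b _ => ?_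
  unfold Phl
  rw [← Finset.mul_sum, ← hk_phi_sum (Nat.gcd a b), Finset.sum_mul, ← Finset.sum_sub_distrib]
  congr 1
  exact Finset.sum_congr rfl fun t _ => by ring

/-- **the exact formula for the terms with a common end point** -/
theorem sh_exact {T : ℝ} {ρ : ℝ → ℝ} (hρ : KerL T ρ) {E : ℕ} (hE : 1 ≤ E) {x : ℕ → ℝ}
    (hx : ∀ e, E < e → x e = 0) (hw : WW E (wX E x) 0 = 0) {N : ℕ} (hN : 1 ≤ N) :
    sh ρ T E x N = ∑ n ∈ Finset.Icc 1 (E ^ 2), CC E x n * tau n *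
      (Real.pi * Cr ρ * Real.log ((N : ℝ) / n) + cR ρ) := by
  have hN0 : (0 : ℝ) < N := by exact_mod_cast hN
  have h1 : ∑ n ∈ Finset.Icc 1 (E ^ 2), CC E x n * tau n *
      (Real.pi * Cr ρ * Real.log ((N : ℝ) / n) + cR ρ) =
      (Real.pi * Cr ρ * Real.log N + cR ρ) * ∑ n ∈ Finset.Icc 1 (E ^ 2), CB E x x n * tau n -
        Real.pi * Cr ρ * ∑ n ∈ Finset.Icc 1 (E ^ 2), CB E x x n * (tau n * Real.log (n : ℝ)) := by
    rw [Finset.mul_sum, Finset.mul_sum, ← Finset.sum_sub_distrib]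
    refine Finset.sum_congr rfl fun n hn => ?_
    have hn0 : (0 : ℝ) < n := by exact_mod_cast (Finset.mem_Icc.mp hn).1
    rw [CB_self, Real.log_div hN0.ne' hn0.ne']
    ring
  have h2 : ∑ n ∈ Finset.Icc 1 (E ^ 2), CB E x x n * tau n =
      ∑ d ∈ Finset.Icc 1 E, ∑ d' ∈ Finset.Icc 1 E, VX E x d * VX E x d' * (Nat.gcd d d' : ℝ) := by
    rw [cb_sum hx hx, vx_pair]
    refine Finset.sum_congr rfl fun e he => Finset.sum_congr rfl fun e' he' => ?_
    rw [Finset.mem_Icc] at he he'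
    rw [sd_tau he.1 he'.1]
  have h3 : ∑ n ∈ Finset.Icc 1 (E ^ 2), CB E x x n * (tau n * Real.log (n : ℝ)) =
      ∑ d ∈ Finset.Icc 1 E, ∑ d' ∈ Finset.Icc 1 E, VX E x d * VX E x d' *
        (2 * ((Nat.gcd d d' : ℝ) * Real.log (Nat.lcm d d') - Phl (Nat.gcd d d'))) := by
    rw [cb_sum hx hx (fun n => tau n * Real.log (n : ℝ)), vx_pair]
    refine Finset.sum_congr rfl fun e he => Finset.sum_congr rfl fun e' he' => ?_
    rw [Finset.mem_Icc] at he he'
    rw [sd_log he.1 he'.1]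
    simp only [Finset.mul_sum]
  rw [h1, h2, h3, sh_V hρ hE hw hN, Finset.mul_sum, Finset.mul_sum, ← Finset.sum_sub_distrib]
  refine Finset.sum_congr rfl fun d _ => ?_
  rw [Finset.mul_sum, Finset.mul_sum, ← Finset.sum_sub_distrib]
  refine Finset.sum_congr rfl fun d' _ => ?_
  ring

/-- the terms with a common end point, for a weight close to the Cauchy weight -/
theorem sh_close {T : ℝ} {ρ : ℝ → ℝ} (hρ : KerL T ρ) {E : ℕ} (hE : 1 ≤ E) {x : ℕ → ℝ}
    (hx : ∀ e, E < e → x e = 0) (hw : WW E (wX E x) 0 = 0) {N : ℕ} (hN : 1 ≤ N) {δ : ℝ}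
    (h1 : |Real.pi * Cr ρ - 1| ≤ δ) (h2 : |cR ρ + Real.log (4 * Real.pi ^ 2)| ≤ δ) :
    |sh ρ T E x N - ∑ n ∈ Finset.Icc 1 (E ^ 2), CC E x n * tau n *
      Real.log ((N : ℝ) / (4 * Real.pi ^ 2 * n))| ≤
      δ * (1 + Real.log N + 2 * Real.log E) * ∑ n ∈ Finset.Icc 1 (E ^ 2), |CC E x n| * tau n := by
  have hN0 : (0 : ℝ) < N := by exact_mod_cast hN
  have hN1 : (1 : ℝ) ≤ N := by exact_mod_cast hN
  have hE1 : (1 : ℝ) ≤ E := by exact_mod_cast hE
  have hδ : 0 ≤ δ := (abs_nonneg _).trans h1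
  rw [sh_exact hρ hE hx hw hN, ← Finset.sum_sub_distrib, Finset.mul_sum]
  refine (Finset.abs_sum_le_sum_abs _ _).trans (Finset.sum_le_sum fun n hn => ?_)
  rw [Finset.mem_Icc] at hn
  have hn0 : (0 : ℝ) < n := by exact_mod_cast hn.1
  have hn1 : (1 : ℝ) ≤ n := by exact_mod_cast hn.1
  have hnE : (n : ℝ) ≤ (E : ℝ) ^ 2 := by exact_mod_cast hn.2
  have e1 : Real.log ((N : ℝ) / (4 * Real.pi ^ 2 * n)) =
      Real.log ((N : ℝ) / n) - Real.log (4 * Real.pi ^ 2) := by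
    rw [← Real.log_div (by positivity) (by positivity)]
    congr 1
    field_simp
  have e2 : CC E x n * tau n * (Real.pi * Cr ρ * Real.log ((N : ℝ) / n) + cR ρ) -
      CC E x n * tau n * Real.log ((N : ℝ) / (4 * Real.pi ^ 2 * n)) =
      CC E x n * tau n * ((Real.pi * Cr ρ - 1) * Real.log ((N : ℝ) / n) +
        (cR ρ + Real.log (4 * Real.pi ^ 2))) := by
    rw [e1]
    ring
  have e3 : |Real.log ((N : ℝ) / n)| ≤ Real.log N + 2 * Real.log E := by
    rw [Real.log_div hN0.ne' hn0.ne']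
    have a1 : 0 ≤ Real.log N := Real.log_nonneg hN1
    have a2 : 0 ≤ Real.log n := Real.log_nonneg hn1
    have a3 : Real.log n ≤ 2 * Real.log E := by
      have := Real.log_le_log hn0 hnE
      rw [Real.log_pow] at this
      exact_mod_cast this
    rw [abs_le]
    constructor <;> linarith
  have e4 : |(Real.pi * Cr ρ - 1) * Real.log ((N : ℝ) / n) +
        (cR ρ + Real.log (4 * Real.pi ^ 2))| ≤ δ * (1 + Real.log N + 2 * Real.log E) := by
    refine (abs_add_le _ _).trans ?_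
    rw [abs_mul]
    have := mul_le_mul h1 e3 (abs_nonneg _) hδ
    linarith
  have ht : 0 ≤ tau n := by unfold tau; positivity
  rw [e2, abs_mul, abs_mul, abs_of_nonneg ht]
  have h0 : 0 ≤ |CC E x n| * tau n := by positivity
  calc |CC E x n| * tau n * |(Real.pi * Cr ρ - 1) * Real.log ((N : ℝ) / n) +
        (cR ρ + Real.log (4 * Real.pi ^ 2))| ≤
        |CC E x n| * tau n * (δ * (1 + Real.log N + 2 * Real.log E)) :=
      mul_le_mul_of_nonneg_left e4 h0
    _ = _ := by ring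

end Pool.Agent.LSP
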