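import Pool.Agent.Lib_helper41.LSP3.LIN
import Pool.Agent.Lib_helper98.HK.C3
import Pool.Agent.Lib_helper53.LEF.EB
import Pool.Agent.Lib_helper53.LEF.EG
import Pool.Agent.Lib_helper53.LEF.EY

/-! LSP3, assembly: sizes. -/

set_option autoImplicit false

namespace Pool.Agent.L3

open Complex MeasureTheory ProbabilityTheory
open Pool.Agent.LSP (tau MX CC CB sg1 wX HE HE_log HE_nonneg tau_nonneg')
open Pool.Agent.KSL (WW)
open Pool.Agent.LEV (Uu Um)
open Pool.Agent.LVB (IsST el)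
open Pool.Agent.LK (Qe V PQ MW)
open Pool.Agent.LE

/-- the size of the smooth twist -/
theorem xv_bd (i : ℕ) : ∃ C : ℝ, 1 ≤ C ∧ ∀ (q : ℕ) [NeZero q] (χ : DirichletCharacter ℂ q)
    (Y : ℝ) (A e : ℕ), 1 ≤ Y → |xv χ i Y A e| ≤ C * (1 + Real.log Y) ^ i := by
  obtain ⟨C, hC⟩ := tail_le_pr i
  have h := (hC 1 le_rfl 1 (by simp)).2.2
  set D : ℝ := max C 1 * ((i.factorial : ℝ) * Real.exp 1) with hD
  have hf : (1 : ℝ) ≤ (i.factorial : ℝ) := by exact_mod_cast Nat.factorial_pos i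
  have he : (1 : ℝ) ≤ Real.exp 1 := Real.one_le_exp (by norm_num)
  have hfe : (1 : ℝ) ≤ (i.factorial : ℝ) * Real.exp 1 := by nlinarith
  have hm : (1 : ℝ) ≤ max C 1 := le_max_right _ _
  have hD1 : 1 ≤ D := by
    rw [hD]
    nlinarith
  refine ⟨D, hD1, fun q _ χ Y A e hY => ?_⟩
  have hL : 0 ≤ Real.log Y := Real.log_nonneg hY
  have hY0 : 0 < Y := by linarith
  have hp1 : (1 : ℝ) ≤ (1 + Real.log Y) ^ i := one_le_pow₀ (by linarith)
  unfold xv
  split_ifs with hc
  · have he0 : (0 : ℝ) < e := by exact_mod_cast hc.1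
    have he1 : (1 : ℝ) ≤ e := by exact_mod_cast hc.1
    have hy : 0 < (e : ℝ) / Y := by positivity
    have h1 := h _ hy
    have hχ : |(χ e).re| ≤ 1 := (Complex.abs_re_le_norm _).trans (χ.norm_le_one _)
    rw [abs_mul]
    have h2 : (1 + |Real.log ((e : ℝ) / Y)|) ^ i * Real.exp (-((e : ℝ) / Y)) ≤
        ((i.factorial : ℝ) * Real.exp 1) * (1 + Real.log Y) ^ i := by
      rcases le_or_gt ((e : ℝ) / Y) 1 with hle | hgt
      · have h3 : |Real.log ((e : ℝ) / Y)| ≤ Real.log Y := by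
          rw [abs_of_nonpos (Real.log_nonpos hy.le hle), Real.log_div he0.ne' hY0.ne']
          have := Real.log_nonneg he1
          linarith
        have h4 : Real.exp (-((e : ℝ) / Y)) ≤ 1 := Real.exp_le_one_iff.mpr (by linarith)
        have h5 : (1 + |Real.log ((e : ℝ) / Y)|) ^ i ≤ (1 + Real.log Y) ^ i :=
          pow_le_pow_left₀ (by positivity) (by linarith) i
        calc (1 + |Real.log ((e : ℝ) / Y)|) ^ i * Real.exp (-((e : ℝ) / Y)) ≤
            (1 + Real.log Y) ^ i * 1 := mul_le_mul h5 h4 (Real.exp_nonneg _) (by positivity)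
          _ = 1 * (1 + Real.log Y) ^ i := by ring
          _ ≤ _ := mul_le_mul_of_nonneg_right hfe (by positivity)
      · set y : ℝ := (e : ℝ) / Y with hyd
        have h3 : |Real.log y| ≤ y := by
          rw [abs_of_nonneg (Real.log_nonneg hgt.le)]
          have := Real.log_le_sub_one_of_pos hy
          linarith
        have h5 : (1 + |Real.log y|) ^ i ≤ (1 + y) ^ i :=
          pow_le_pow_left₀ (by positivity) (by linarith) i
        have h6 : (1 + y) ^ i ≤ (i.factorial : ℝ) * Real.exp (1 + y) := by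
          have := Real.pow_div_factorial_le_exp (1 + y) (by positivity) i
          rw [div_le_iff₀ (by positivity)] at this
          linarith
        have h7 : (1 + |Real.log y|) ^ i * Real.exp (-y) ≤ (i.factorial : ℝ) * Real.exp 1 := by
          calc (1 + |Real.log y|) ^ i * Real.exp (-y) ≤
              ((i.factorial : ℝ) * Real.exp (1 + y)) * Real.exp (-y) :=
                mul_le_mul_of_nonneg_right (h5.trans h6) (Real.exp_nonneg _)
            _ = (i.factorial : ℝ) * (Real.exp (1 + y) * Real.exp (-y)) := by ring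
            _ = (i.factorial : ℝ) * Real.exp 1 := by
              rw [← Real.exp_add]
              congr 2
              ring
        refine h7.trans ?_
        nlinarith
    have hC0 : C ≤ max C 1 := le_max_left _ _
    have h8 : |V i ((e : ℝ) / Y)| ≤ D * (1 + Real.log Y) ^ i := by
      refine h1.trans ?_
      rw [mul_assoc]
      have h9 : 0 ≤ (1 + |Real.log ((e : ℝ) / Y)|) ^ i * Real.exp (-((e : ℝ) / Y)) := by positivity
      calc C * ((1 + |Real.log ((e : ℝ) / Y)|) ^ i * Real.exp (-((e : ℝ) / Y))) ≤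
          max C 1 * ((1 + |Real.log ((e : ℝ) / Y)|) ^ i * Real.exp (-((e : ℝ) / Y))) :=
            mul_le_mul_of_nonneg_right hC0 h9
        _ ≤ max C 1 * (((i.factorial : ℝ) * Real.exp 1) * (1 + Real.log Y) ^ i) :=
            mul_le_mul_of_nonneg_left h2 (by linarith)
        _ = _ := by rw [hD]; ring
    calc |(χ e).re| * |V i ((e : ℝ) / Y)| ≤ 1 * (D * (1 + Real.log Y) ^ i) :=
          mul_le_mul hχ h8 (abs_nonneg _) (by norm_num)
      _ = _ := one_mul _
  · rw [abs_zero]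
    positivity

/-- the size of the combination of the smooth twists -/
theorem u_bd (J : Finset ℕ) {k : ℕ} (hk : ∀ i ∈ J, i ≤ k) : ∃ C : ℝ, 1 ≤ C ∧
    ∀ (q : ℕ) [NeZero q] (χ : DirichletCharacter ℂ q) (θ : ℕ → ℝ) (Y : ℝ) (A e : ℕ), 1 ≤ Y →
      |∑ i ∈ J, θ i * xv χ i Y A e| ≤ (∑ i ∈ J, |θ i|) * (C * (1 + Real.log Y) ^ k) := by
  classical
  choose c hc1 hc using fun i => xv_bd i
  refine ⟨1 + ∑ i ∈ J, c i, ?_, ?_⟩
  · have : 0 ≤ ∑ i ∈ J, c i := Finset.sum_nonneg fun i _ => by linarith [hc1 i]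
    linarith
  · intro q _ χ θ Y A e hY
    have hL : 0 ≤ Real.log Y := Real.log_nonneg hY
    refine (Finset.abs_sum_le_sum_abs _ _).trans ?_
    rw [Finset.sum_mul]
    refine Finset.sum_le_sum fun i hi => ?_
    rw [abs_mul]
    refine mul_le_mul_of_nonneg_left ?_ (abs_nonneg _)
    refine (hc i q χ Y A e hY).trans ?_
    have h1 : c i ≤ 1 + ∑ j ∈ J, c j := by
      have := Finset.single_le_sum (f := c) (fun j _ => by linarith [hc1 j]) hi
      linarith
    have h2 : (1 + Real.log Y) ^ i ≤ (1 + Real.log Y) ^ k := pow_le_pow_right₀ (by linarith) (hk i hi)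
    exact mul_le_mul h1 h2 (by positivity) (by linarith [hc1 i])

variable {q : ℕ} [NeZero q]

/-- the size of the vector -/
theorem xx_abs (χ : DirichletCharacter ℂ q) (J : Finset ℕ) (θ : ℕ → ℝ) (Y : ℝ) (A E : ℕ) {K : ℕ}
    {b : ℕ → ℝ} (hb : SuppIn K b) {U b₀ : ℝ} (hU : ∀ e, |∑ i ∈ J, θ i * xv χ i Y A e| ≤ U)
    (hb₀ : ∀ k, |b k| ≤ b₀) (e : ℕ) : |xx χ J θ b Y A E e| ≤ U * b₀ * K ^ 2 :=
  hp_abs_pr (u_supp χ J θ Y A) hb hU hb₀ e

theorem sg1_le (g : ℕ) : sg1 g ≤ (g : ℝ) ^ 2 := by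
  unfold sg1
  calc ∑ d ∈ g.divisors, (d : ℝ) ≤ ∑ d ∈ g.divisors, (g : ℝ) :=
        Finset.sum_le_sum fun d hd => by exact_mod_cast Nat.divisor_le hd
    _ = (g.divisors.card : ℝ) * g := by rw [Finset.sum_const, nsmul_eq_mul]
    _ ≤ (g : ℝ) * g := by
      refine mul_le_mul_of_nonneg_right ?_ (Nat.cast_nonneg _)
      exact_mod_cast Nat.card_divisors_le_self g
    _ = _ := by ring

/-- the size of the coefficients of the kernel -/
theorem ww_bd {E : ℕ} {x : ℕ → ℝ} (hx : SuppIn E x) {X : ℝ} (hX : ∀ e, |x e| ≤ X) {m : ℕ}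
    (hm : 1 ≤ m) : |WW E (wX E x) m| ≤ X * m ^ 2 * (1 + Real.log E) := by
  have hX0 : 0 ≤ X := (abs_nonneg _).trans (hX 0)
  rw [ww_eq_pr hx hm]
  rcases Nat.eq_zero_or_pos E with hE | hE
  · subst hE
    simp
    positivity
  refine (Finset.abs_sum_le_sum_abs _ _).trans ?_
  have h1 : ∀ e ∈ Finset.Icc 1 E, |x e / e * sg1 (Nat.gcd e m)| ≤ X * m ^ 2 * (1 / (e : ℝ)) := by
    intro e he
    have he0 : (0 : ℝ) < e := by exact_mod_cast (Finset.mem_Icc.mp he).1
    have h2 : 0 ≤ sg1 (Nat.gcd e m) := Finset.sum_nonneg fun d _ => Nat.cast_nonneg d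
    have h3 : sg1 (Nat.gcd e m) ≤ (m : ℝ) ^ 2 := by
      refine (sg1_le _).trans ?_
      refine pow_le_pow_left₀ (Nat.cast_nonneg _) ?_ 2
      exact_mod_cast Nat.gcd_le_right e hm
    rw [abs_mul, abs_div, abs_of_pos he0, abs_of_nonneg h2]
    calc |x e| / e * sg1 (Nat.gcd e m) ≤ X / e * m ^ 2 := by
          refine mul_le_mul (div_le_div_of_nonneg_right (hX e) he0.le) h3 h2 (by positivity)
      _ = _ := by ring
  refine (Finset.sum_le_sum h1).trans ?_
  rw [← Finset.mul_sum]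
  refine mul_le_mul_of_nonneg_left ?_ (by positivity)
  exact HE_log hE

/-! ### the quadratic mean -/

theorem tau_mul_le {a b : ℕ} (ha : 1 ≤ a) (hb : 1 ≤ b) : tau (a * b) ≤ tau a * tau b := by
  unfold tau
  have h : (a * b).divisors.card ≤ a.divisors.card * b.divisors.card := by
    rw [Nat.divisors_mul]
    exact Finset.card_mul_le
  exact_mod_cast h

theorem tau_ge_one {n : ℕ} (hn : 1 ≤ n) : 1 ≤ tau n := by
  unfold tau
  have : 0 < n.divisors.card := Finset.card_pos.mpr ⟨1, Nat.one_mem_divisors.mpr (by omega)⟩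
  exact_mod_cast this

/-- moments of the divisor function -/
theorem tau_mom {E : ℕ} (hE : 1 ≤ E) (k : ℕ) :
    ∑ n ∈ Finset.Icc 1 E, tau n ^ k / n ≤ (1 + Real.log E) ^ (2 ^ k) := by
  induction k with
  | zero =>
    simp only [pow_zero, pow_one]
    exact HE_log hE
  | succ k ih =>
    have h0 : 0 ≤ ∑ n ∈ Finset.Icc 1 E, tau n ^ k / n :=
      Finset.sum_nonneg fun n _ => div_nonneg (pow_nonneg (tau_nonneg' n) k) (Nat.cast_nonneg n)
    have h1 : ∑ n ∈ Finset.Icc 1 E, tau n ^ (k + 1) / n ≤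
        (∑ n ∈ Finset.Icc 1 E, tau n ^ k / n) * ∑ n ∈ Finset.Icc 1 E, tau n ^ k / n := by
      have h2 : ∀ n ∈ Finset.Icc 1 E, tau n ^ (k + 1) / n ≤
          ∑ p ∈ n.divisorsAntidiagonal, (tau p.1 ^ k / p.1) * (tau p.2 ^ k / p.2) := by
        intro n hn
        have hn1 : 1 ≤ n := (Finset.mem_Icc.mp hn).1
        have h3 : tau n ^ (k + 1) / n = ∑ p ∈ n.divisorsAntidiagonal, tau n ^ k / n := by
          rw [Finset.sum_const, nsmul_eq_mul]
          have : (n.divisorsAntidiagonal.card : ℝ) = tau n := by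
            unfold tau
            rw [← Nat.map_div_right_divisors, Finset.card_map]
          rw [this, pow_succ]
          ring
        rw [h3]
        refine Finset.sum_le_sum fun p hp => ?_
        rw [Nat.mem_divisorsAntidiagonal] at hp
        have hp0 : p.1 * p.2 ≠ 0 := by rw [hp.1]; exact hp.2
        have hp1 : 1 ≤ p.1 := Nat.pos_of_ne_zero (left_ne_zero_of_mul hp0)
        have hp2 : 1 ≤ p.2 := Nat.pos_of_ne_zero (right_ne_zero_of_mul hp0)
        have hp1' : (0 : ℝ) < p.1 := by exact_mod_cast hp1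
        have hp2' : (0 : ℝ) < p.2 := by exact_mod_cast hp2
        have h4 : (n : ℝ) = p.1 * p.2 := by rw [← hp.1]; push_cast; ring
        have h5 : tau n ^ k ≤ tau p.1 ^ k * tau p.2 ^ k := by
          rw [← mul_pow, ← hp.1]
          exact pow_le_pow_left₀ (tau_nonneg' _) (tau_mul_le hp1 hp2) k
        rw [h4, div_mul_div_comm]
        exact div_le_div_of_nonneg_right h5 (by positivity)
      refine (Finset.sum_le_sum h2).trans ?_
      rw [Finset.sum_mul_sum, ← Finset.sum_product', Finset.sum_sigma']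
      have hinj : ∀ x ∈ (Finset.Icc 1 E).sigma (fun n => n.divisorsAntidiagonal),
          (x.2 : ℕ × ℕ) ∈ Finset.Icc 1 E ×ˢ Finset.Icc 1 E := by
        rintro ⟨n, p⟩ hx
        simp only [Finset.mem_sigma, Finset.mem_Icc, Nat.mem_divisorsAntidiagonal,
          Finset.mem_product] at hx ⊢
        obtain ⟨⟨h3, h4⟩, h5, h6⟩ := hx
        have hp0 : p.1 * p.2 ≠ 0 := by rw [h5]; exact h6
        have hp1 : 1 ≤ p.1 := Nat.pos_of_ne_zero (left_ne_zero_of_mul hp0)
        have hp2 : 1 ≤ p.2 := Nat.pos_of_ne_zero (right_ne_zero_of_mul hp0)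
        have h7 : p.1 ≤ n := by rw [← h5]; exact Nat.le_mul_of_pos_right _ hp2
        have h8 : p.2 ≤ n := by rw [← h5]; exact Nat.le_mul_of_pos_left _ hp1
        exact ⟨⟨hp1, h7.trans h4⟩, hp2, h8.trans h4⟩
      have hset : ∑ x ∈ (Finset.Icc 1 E).sigma (fun n => n.divisorsAntidiagonal),
          (tau x.2.1 ^ k / x.2.1) * (tau x.2.2 ^ k / x.2.2) =
          ∑ p ∈ ((Finset.Icc 1 E).sigma (fun n => n.divisorsAntidiagonal)).image (fun x => x.2),
            (tau p.1 ^ k / p.1) * (tau p.2 ^ k / p.2) := by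
        rw [Finset.sum_image]
        rintro ⟨n, p⟩ hx ⟨n', p'⟩ hx' h
        simp only [Finset.coe_sigma, Set.mem_sigma_iff, Finset.mem_coe,
          Nat.mem_divisorsAntidiagonal] at hx hx' h
        subst h
        have : n = n' := hx.2.1.symm.trans hx'.2.1
        subst this
        rfl
      rw [hset]
      refine Finset.sum_le_sum_of_subset_of_nonneg ?_ ?_
      · intro p hp
        rw [Finset.mem_image] at hp
        obtain ⟨x, hx, rfl⟩ := hp
        exact hinj x hx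
      · intro p _ _
        exact mul_nonneg (div_nonneg (pow_nonneg (tau_nonneg' _) k) (Nat.cast_nonneg _))
          (div_nonneg (pow_nonneg (tau_nonneg' _) k) (Nat.cast_nonneg _))
    refine h1.trans ?_
    have h6 := mul_le_mul ih ih h0 (h0.trans ih)
    refine h6.trans (le_of_eq ?_)
    rw [← pow_add]
    congr 1
    rw [pow_succ]
    ring

/-- pointwise bound for a product of a bounded vector and a vector of divisor type -/
theorem hp_tau {A K E : ℕ} {u b : ℕ → ℝ} (hu : SuppIn A u) (hb : SuppIn K b) {U b₁ : ℝ} {a : ℕ}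
    (hE : 1 ≤ E) (hU : ∀ e, |u e| ≤ U) (hb₁ : ∀ e, |b e| ≤ b₁ * tau e ^ a) {n : ℕ} (hn : 1 ≤ n) :
    |HP E u b n| ≤ U * b₁ * (1 + Real.log E) ^ (2 ^ a) * tau n ^ (a + 1) := by
  have hU0 : 0 ≤ U := (abs_nonneg _).trans (hU 0)
  have hb0 : 0 ≤ b₁ := by
    have h1 := (abs_nonneg _).trans (hb₁ 1)
    have h2 : tau 1 = 1 := by simp [tau]
    rw [h2, one_pow, mul_one] at h1
    exact h1
  unfold HP
  refine (Finset.abs_sum_le_sum_abs _ _).trans ?_
  have h1 : ∀ j ∈ Finset.Icc 1 E, |(1 / (j : ℝ)) * ∑ p ∈ n.divisorsAntidiagonal,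
      u (j * p.1) * b (j * p.2)| ≤ (U * b₁ * tau n ^ (a + 1)) * (tau j ^ a / j) := by
    intro j hj
    have hj1 : 1 ≤ j := (Finset.mem_Icc.mp hj).1
    have hj0 : (0 : ℝ) < j := by exact_mod_cast hj1
    rw [abs_mul, abs_of_pos (by positivity : (0 : ℝ) < 1 / j)]
    have h2 : |∑ p ∈ n.divisorsAntidiagonal, u (j * p.1) * b (j * p.2)| ≤
        ∑ p ∈ n.divisorsAntidiagonal, U * (b₁ * (tau j ^ a * tau n ^ a)) := by
      refine (Finset.abs_sum_le_sum_abs _ _).trans (Finset.sum_le_sum fun p hp => ?_)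
      rw [Nat.mem_divisorsAntidiagonal] at hp
      have hp0 : p.1 * p.2 ≠ 0 := by rw [hp.1]; exact hp.2
      have hp2 : 1 ≤ p.2 := Nat.pos_of_ne_zero (right_ne_zero_of_mul hp0)
      rw [abs_mul]
      refine mul_le_mul (hU _) ?_ (abs_nonneg _) hU0
      refine (hb₁ _).trans (mul_le_mul_of_nonneg_left ?_ hb0)
      rw [← mul_pow]
      refine pow_le_pow_left₀ (tau_nonneg' _) ((tau_mul_le hj1 hp2).trans ?_) a
      refine mul_le_mul_of_nonneg_left ?_ (tau_nonneg' _)
      unfold tau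
      exact_mod_cast Finset.card_le_card (Nat.divisors_subset_of_dvd (by omega)
        (Dvd.intro_left _ hp.1))
    have h3 : ∑ p ∈ n.divisorsAntidiagonal, U * (b₁ * (tau j ^ a * tau n ^ a)) =
        tau n * (U * (b₁ * (tau j ^ a * tau n ^ a))) := by
      rw [Finset.sum_const, nsmul_eq_mul]
      have : (n.divisorsAntidiagonal.card : ℝ) = tau n := by
        unfold tau
        rw [← Nat.map_div_right_divisors, Finset.card_map]
      rw [this]
    rw [h3] at h2
    calc 1 / (j : ℝ) * |∑ p ∈ n.divisorsAntidiagonal, u (j * p.1) * b (j * p.2)| ≤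
        1 / (j : ℝ) * (tau n * (U * (b₁ * (tau j ^ a * tau n ^ a)))) :=
          mul_le_mul_of_nonneg_left h2 (by positivity)
      _ = _ := by rw [pow_succ]; ring
  refine (Finset.sum_le_sum h1).trans ?_
  rw [← Finset.mul_sum]
  have h4 := tau_mom hE a
  have h5 : 0 ≤ U * b₁ * tau n ^ (a + 1) := by
    have := tau_nonneg' n
    positivity
  refine (mul_le_mul_of_nonneg_left h4 h5).trans (le_of_eq ?_)
  ring

/-- the quadratic mean of a vector of divisor type -/
theorem sq_mean {E : ℕ} (hE : 1 ≤ E) {x : ℕ → ℝ} {X : ℝ} {a : ℕ}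
    (hx : ∀ n, 1 ≤ n → |x n| ≤ X * tau n ^ a) :
    ∑ n ∈ Finset.Icc 1 E, x n ^ 2 / n ≤ X ^ 2 * (1 + Real.log E) ^ (2 ^ (2 * a)) := by
  have h1 : ∀ n ∈ Finset.Icc 1 E, x n ^ 2 / n ≤ X ^ 2 * (tau n ^ (2 * a) / n) := by
    intro n hn
    have hn1 : 1 ≤ n := (Finset.mem_Icc.mp hn).1
    have hn0 : (0 : ℝ) < n := by exact_mod_cast hn1
    have h2 : x n ^ 2 ≤ (X * tau n ^ a) ^ 2 := by
      rw [← sq_abs]
      exact pow_le_pow_left₀ (abs_nonneg _) (hx n hn1) 2
    calc x n ^ 2 / n ≤ (X * tau n ^ a) ^ 2 / n := div_le_div_of_nonneg_right h2 hn0.le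
      _ = _ := by rw [mul_pow, ← pow_mul, mul_comm a 2]; ring
  refine (Finset.sum_le_sum h1).trans ?_
  rw [← Finset.mul_sum]
  exact mul_le_mul_of_nonneg_left (tau_mom hE _) (by positivity)

/-- the quadratic mean of the vector of the mollified central value -/
theorem xx_mean (χ : DirichletCharacter ℂ q) (J : Finset ℕ) (θ : ℕ → ℝ) (Y : ℝ) (A : ℕ) {E K : ℕ}
    (hE : 1 ≤ E) {b : ℕ → ℝ} (hb : SuppIn K b) {U b₁ : ℝ} {a : ℕ}
    (hU : ∀ e, |∑ i ∈ J, θ i * xv χ i Y A e| ≤ U) (hb₁ : ∀ e, |b e| ≤ b₁ * tau e ^ a) :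
    ∑ n ∈ Finset.Icc 1 E, xx χ J θ b Y A E n ^ 2 / n ≤
      (U * b₁) ^ 2 * (1 + Real.log E) ^ (2 * 2 ^ a + 2 ^ (2 * (a + 1))) := by
  have h1 := sq_mean hE (x := xx χ J θ b Y A E) (X := U * b₁ * (1 + Real.log E) ^ (2 ^ a))
    (a := a + 1) (fun n hn => hp_tau (u_supp χ J θ Y A) hb hE hU hb₁ hn)
  refine h1.trans (le_of_eq ?_)
  rw [pow_add, mul_pow (U * b₁), ← pow_mul (1 + Real.log (E : ℝ)) (2 ^ a) 2, mul_comm (2 ^ a) 2]
  ring

end Pool.Agent.L3
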