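import Pool.Agent.Lib_helper41.LSP3.SZH
import Pool.Agent.Lib_helper71.LSP3.TOP

/-! LSP3: every large prime level, with the size of the central values in terms of the distance of
an exceptional zero to `1`. -/

set_option autoImplicit false

namespace Pool.Agent.LSP

open Pool.Agent.LEV Pool.Agent.LVB Pool.Agent.KSL
open Pool.Agent.LK (KerC PQ)
open Pool.Agent.FG61 (mu phi cc ff AA Lam)
open Complex MeasureTheory Filter Topology UpperHalfPlane ModularGroup ProbabilityTheory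
open scoped MatrixGroups Modular ENNReal ModularForm ComplexConjugate ContDiff

/-- from the mean square of the mollifier to large central values -/
theorem size_step {κ' : ℝ} (hκ' : 0 < κ') (w : ℕ) : ∃ N₀ : ℕ, ∀ (N : ℕ) [Fact N.Prime], N₀ ≤ N →
    ∀ H : ℝ, 1 ≤ H → ∀ (E : ℕ) (x : ℕ → ℝ),
      ∑ n ∈ Finset.Icc 1 E, x n ^ 2 / n ≤ H ^ 2 * Real.log N ^ w →
      ({f : S2 N | (IsNew f ∧ co f N = 1) ∧
        κ' ≤ ‖Lh f‖ * Real.sqrt (∑ n ∈ Finset.Icc 1 E, x n ^ 2 / n + 1)}.ncard : ℝ) ≤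
      ({f : S2 N | (IsNew f ∧ co f N = 1) ∧
        1 / (H * Real.log N ^ (w + 1)) ≤ ‖Lh f‖}.ncard : ℝ) := by
  have hl : Tendsto (fun N : ℕ => Real.log (N : ℝ)) atTop atTop :=
    Real.tendsto_log_atTop.comp tendsto_natCast_atTop_atTop
  obtain ⟨N₃, hN₃⟩ := Filter.eventually_atTop.mp (hl.eventually_ge_atTop (max 1 (2 / κ')))
  refine ⟨N₃, fun N _ hN H hH E x hx => ?_⟩
  obtain ⟨_, _, hnf⟩ := new_fin
  have hF : {f : S2 N | IsNew f}.Finite := (hnf N).1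
  have hl1 := hN₃ N (by omega)
  obtain ⟨L, hL⟩ : ∃ L : ℝ, L = Real.log N := ⟨_, rfl⟩
  rw [← hL] at hl1 hx
  have hL1 : 1 ≤ L := (le_max_left _ _).trans hl1
  have hL2 : 2 / κ' ≤ L := (le_max_right _ _).trans hl1
  have hx0 : 0 ≤ ∑ n ∈ Finset.Icc 1 E, x n ^ 2 / n := Finset.sum_nonneg fun n _ => by positivity
  have hLw : 1 ≤ L ^ w := one_le_pow₀ hL1
  have hLw2 : L ^ w ≤ L ^ w * L ^ w := le_mul_of_one_le_left (by positivity) hLw
  have hHH : 1 ≤ H ^ 2 := one_le_pow₀ hH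
  have h1 : Real.sqrt (∑ n ∈ Finset.Icc 1 E, x n ^ 2 / n + 1) ≤ 2 * (H * L ^ w) := by
    apply Real.sqrt_le_iff.mpr
    refine ⟨by positivity, ?_⟩
    have h5 : H ^ 2 * L ^ w ≤ H ^ 2 * (L ^ w * L ^ w) :=
      mul_le_mul_of_nonneg_left hLw2 (by positivity)
    have h6 : 1 ≤ H ^ 2 * (L ^ w * L ^ w) := by
      have h7 : 1 ≤ L ^ w * L ^ w := by nlinarith
      nlinarith
    calc ∑ n ∈ Finset.Icc 1 E, x n ^ 2 / n + 1 ≤
          H ^ 2 * (L ^ w * L ^ w) + H ^ 2 * (L ^ w * L ^ w) := by linarith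
      _ ≤ (2 * (H * L ^ w)) ^ 2 := by nlinarith
  have hsub : {f : S2 N | (IsNew f ∧ co f N = 1) ∧
      κ' ≤ ‖Lh f‖ * Real.sqrt (∑ n ∈ Finset.Icc 1 E, x n ^ 2 / n + 1)} ⊆
      {f : S2 N | (IsNew f ∧ co f N = 1) ∧ 1 / (H * Real.log N ^ (w + 1)) ≤ ‖Lh f‖} := by
    intro f hf
    refine ⟨hf.1, ?_⟩
    have h2 : κ' ≤ ‖Lh f‖ * (2 * (H * L ^ w)) :=
      hf.2.trans (mul_le_mul_of_nonneg_left h1 (norm_nonneg _))
    rw [← hL, div_le_iff₀ (by positivity)]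
    have h3 : 2 ≤ L * κ' := by
      rw [div_le_iff₀ hκ'] at hL2
      exact hL2
    have h4 : L * κ' ≤ L * (‖Lh f‖ * (2 * (H * L ^ w))) :=
      mul_le_mul_of_nonneg_left h2 (by linarith)
    calc (1 : ℝ) ≤ 1 / 2 * (L * (‖Lh f‖ * (2 * (H * L ^ w)))) := by linarith
      _ = ‖Lh f‖ * (H * L ^ (w + 1)) := by ring
  have hfin : {f : S2 N | (IsNew f ∧ co f N = 1) ∧
      1 / (H * Real.log N ^ (w + 1)) ≤ ‖Lh f‖}.Finite := hF.subset fun f hf => hf.1.1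
  exact_mod_cast Set.ncard_le_ncard hsub hfin

/-- class `χ(-N) = 1` -/
theorem ex_levelH {δ : ℝ} (hδ : 0 < δ) : ∃ (κ₀ : ℝ) (w : ℕ), 0 < κ₀ ∧ ∀ κ : ℝ, 0 < κ → κ ≤ κ₀ →
    ∃ N₀ : ℕ, ∀ (N : ℕ) [Fact N.Prime], N₀ ≤ N → ∀ H : ℝ, 1 ≤ H → LX.ExZH H κ N →
      (3 / 5 - δ) * (N / 24) ≤ ({f : S2 N | (IsNew f ∧ co f N = 1) ∧
        1 / (H * Real.log N ^ w) ≤ ‖Lh f‖}.ncard : ℝ) := by
  obtain ⟨m₀, s, e, κ', N₁, hm₀, hs, he, hκ', hN₁⟩ :=
    ex_nat (q := 3 / 5) (by norm_num) (by norm_num) hδ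
  obtain ⟨κ₀, w, hκ₀, hκ⟩ := LX.exh_plus m₀ s hm₀ hs e he
  obtain ⟨N₃, hN₃⟩ := size_step hκ' w
  refine ⟨κ₀, w + 1, hκ₀, fun κ hκ1 hκ2 => ?_⟩
  obtain ⟨N₂, hN₂⟩ := hκ κ hκ1 hκ2
  refine ⟨N₁ + N₂ + N₃, fun N _ hN H hH hP => ?_⟩
  obtain ⟨T, ρ, B₀, E, x, hv, hx⟩ := hN₂ N (by omega) Fact.out H hH hP
  exact (hN₁ N (by omega) T ρ B₀ E x hv).trans (hN₃ N (by omega) H hH E x hx)

/-- **more than half of the central values are large at every prime level, in terms of the distance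
of an exceptional zero to `1`** -/
theorem all_levelsH : ∃ (c κ : ℝ) (w N₀ : ℕ), 0 < c ∧ c ≤ 1 ∧ 0 < κ ∧ κ ≤ 1 / 2 ∧
    ∀ (N : ℕ) [Fact N.Prime], N₀ ≤ N → ∀ H : ℝ, 1 ≤ H →
      (∀ (q : ℕ) [NeZero q] (χ : DirichletCharacter ℂ q), PQ χ → (q : ℝ) ≤ (N : ℝ) ^ κ →
        χ (-(N : ZMod q)) = 1 → ∀ β : ℝ, 1 - 1 / H < β →
          DirichletCharacter.LFunction χ (β : ℂ) ≠ 0) →
      (1 / 2 + c) * (N / 24) ≤ ({f : S2 N | (IsNew f ∧ co f N = 1) ∧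
        1 / (H * Real.log N ^ w) ≤ ‖Lh f‖}.ncard : ℝ) := by
  obtain ⟨κ₁, w₁, hκ₁, h1⟩ := ex_levelB (q := 1) (by norm_num) (by norm_num) LX.exb_minus
    (δ := 2 / 100) (by norm_num)
  obtain ⟨κ₂, w₂, hκ₂, h2⟩ := ex_levelH (δ := 5 / 100) (by norm_num)
  obtain ⟨κ₀, hκ₀, hκ₀1, hκ₀2, hκ₀3⟩ : ∃ κ₀ : ℝ, 0 < κ₀ ∧ κ₀ ≤ κ₁ ∧ κ₀ ≤ κ₂ ∧ κ₀ ≤ 1 / 2 :=
    ⟨min (min κ₁ κ₂) (1 / 2), lt_min (lt_min hκ₁ hκ₂) (by norm_num),
      (min_le_left _ _).trans (min_le_left _ _), (min_le_left _ _).trans (min_le_right _ _),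
      min_le_right _ _⟩
  obtain ⟨N₁, hN₁⟩ := h1 κ₀ hκ₀ hκ₀1
  obtain ⟨N₂, hN₂⟩ := h2 κ₀ hκ₀ hκ₀2
  obtain ⟨κ, c, hκ, hκκ, -, hc, hc1, h3⟩ := free_small hκ₀ hκ₀
  obtain ⟨N₃, hN₃⟩ := h3 1 (by norm_num)
  refine ⟨min c (1 / 20), κ, w₁ + w₂ + 1, N₁ + N₂ + N₃ + 3, lt_min hc (by norm_num),
    (min_le_left _ _).trans hc1, hκ, hκκ.trans hκ₀3, fun N _ hN H hH hz => ?_⟩
  have hNp : N.Prime := Fact.out
  have hm2 := min_le_right c (1 / 20 : ℝ)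
  have hN0 : (0 : ℝ) ≤ (N : ℝ) / 24 := by positivity
  have hN3 : (3 : ℝ) ≤ N := by exact_mod_cast (by omega : 3 ≤ N)
  have hlog : 1 ≤ Real.log N := by
    rw [Real.le_log_iff_exp_le (by linarith)]
    have := Real.exp_one_lt_three
    linarith
  obtain ⟨_, _, hnf⟩ := new_fin
  have hF : {f : S2 N | IsNew f}.Finite := (hnf N).1
  -- comparison of the thresholds
  have hcmp : ∀ a : ℝ, 1 / (H * Real.log N ^ (w₁ + w₂ + 1)) ≤ a →
      ({f : S2 N | (IsNew f ∧ co f N = 1) ∧ a ≤ ‖Lh f‖}.ncard : ℝ) ≤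
        ({f : S2 N | (IsNew f ∧ co f N = 1) ∧
          1 / (H * Real.log N ^ (w₁ + w₂ + 1)) ≤ ‖Lh f‖}.ncard : ℝ) := by
    intro a ha
    have hsub : {f : S2 N | (IsNew f ∧ co f N = 1) ∧ a ≤ ‖Lh f‖} ⊆
        {f : S2 N | (IsNew f ∧ co f N = 1) ∧
          1 / (H * Real.log N ^ (w₁ + w₂ + 1)) ≤ ‖Lh f‖} := fun f hf => ⟨hf.1, ha.trans hf.2⟩
    have hfin : {f : S2 N | (IsNew f ∧ co f N = 1) ∧
        1 / (H * Real.log N ^ (w₁ + w₂ + 1)) ≤ ‖Lh f‖}.Finite := hF.subset fun f hf => hf.1.1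
    exact_mod_cast Set.ncard_le_ncard hsub hfin
  have hpw : ∀ k : ℕ, k ≤ w₁ + w₂ + 1 → Real.log N ^ k ≤ Real.log N ^ (w₁ + w₂ + 1) :=
    fun k hk => pow_le_pow_right₀ hlog hk
  have hinv : ∀ k : ℕ, k ≤ w₁ + w₂ + 1 →
      1 / (H * Real.log N ^ (w₁ + w₂ + 1)) ≤ 1 / (H * Real.log N ^ k) := fun k hk =>
    one_div_le_one_div_of_le (by positivity) (mul_le_mul_of_nonneg_left (hpw k hk) (by linarith))
  have hinv' : ∀ k : ℕ, k ≤ w₁ + w₂ + 1 →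
      1 / (H * Real.log N ^ (w₁ + w₂ + 1)) ≤ 1 / Real.log N ^ k := by
    intro k hk
    refine (hinv k hk).trans (one_div_le_one_div_of_le (by positivity) ?_)
    exact le_mul_of_one_le_left (by positivity) hH
  by_cases hf : GA.Free (κ₀ / Real.log N) ⌊(N : ℝ) ^ κ⌋₊
  · have h4 := hN₃ N (by omega) hf N (by omega) (by omega)
    refine le_trans (mul_le_mul_of_nonneg_right ?_ hN0) (h4.trans (hcmp _ ?_))
    · have := min_le_left c (1 / 20)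
      linarith
    · have h5 := hinv' 1 (by omega)
      rw [pow_one] at h5
      rw [Real.rpow_one]
      exact h5
  · -- an exceptional zero
    have h4 : LX.ExZH H κ₀ N ∨ ExZ 1 κ₀ N := by
      unfold GA.Free at hf
      push Not at hf
      obtain ⟨q, hq, χ, hχ, hsq, β, hβ, hlt⟩ := hf
      rw [Finset.mem_Icc] at hq
      have hq0 : q ≠ 0 := by omega
      have : NeZero q := ⟨hq0⟩
      have h5 : χ.IsPrimitive ∧ χ ≠ 1 := by
        have h6 := hχ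
        unfold GA.Prm at h6
        simp only [Finset.mem_filter] at h6
        exact h6.2
      obtain ⟨hprim, hne⟩ := h5
      have hN1 : (1 : ℝ) < N := by linarith
      have hqN' : (q : ℝ) ≤ (N : ℝ) ^ κ := (Nat.le_floor_iff' hq0).1 hq.2
      have hqN : (q : ℝ) ≤ (N : ℝ) ^ κ₀ :=
        hqN'.trans (Real.rpow_le_rpow_of_exponent_le hN1.le hκκ)
      unfold GA.LF at hβ
      rw [dif_neg hq0] at hβ
      have hβ1 : β < 1 := by
        by_contra h6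
        push Not at h6
        exact DirichletCharacter.LFunction_ne_zero_of_one_le_re χ (s := (β : ℂ)) (Or.inl hne)
          (by simpa using h6) hβ
      have hqlt : q < N := by
        have h6 : (N : ℝ) ^ κ₀ < (N : ℝ) ^ (1 : ℝ) :=
          Real.rpow_lt_rpow_of_exponent_lt hN1 (by linarith)
        rw [Real.rpow_one] at h6
        exact_mod_cast hqN.trans_lt h6
      have hcop : N.Coprime q := by
        rw [hNp.coprime_iff_not_dvd]
        intro hd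
        have := Nat.le_of_dvd (by omega) hd
        omega
      have hu : IsUnit (-(N : ZMod q)) := ((ZMod.isUnit_iff_coprime N q).2 hcop).neg
      have hχ1 : χ (-(N : ZMod q)) = 1 ∨ χ (-(N : ZMod q)) = -1 := by
        have h6 : χ (-(N : ZMod q)) ^ 2 = 1 := by
          rw [← MulChar.pow_apply' χ two_ne_zero, hsq, MulChar.one_apply hu]
        have h7 : (χ (-(N : ZMod q)) - 1) * (χ (-(N : ZMod q)) + 1) = 0 := by
          linear_combination h6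
        rcases mul_eq_zero.mp h7 with h8 | h8
        · exact Or.inl (by linear_combination h8)
        · exact Or.inr (by linear_combination h8)
      have hPQ : PQ χ := ⟨hprim, hsq, hne⟩
      rcases hχ1 with h6 | h6
      · have h7 : β ≤ 1 - 1 / H := by
          by_contra h8
          push Not at h8
          exact hz q χ hPQ hqN' h6 β h8 hβ
        exact Or.inl ⟨q, ‹_›, χ, β, hPQ, hqN, h6, hlt, h7, hβ⟩
      · exact Or.inr ⟨q, ‹_›, χ, β, hPQ, hqN, by rw [h6]; simp, hlt, hβ1, hβ⟩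
    rcases h4 with h4 | h4
    · refine le_trans (mul_le_mul_of_nonneg_right ?_ hN0)
        ((hN₂ N (by omega) H hH h4).trans (hcmp _ (hinv w₂ (by omega))))
      linarith
    · refine le_trans (mul_le_mul_of_nonneg_right ?_ hN0)
        ((hN₁ N (by omega) h4).trans (hcmp _ (hinv' w₁ (by omega))))
      linarith

end Pool.Agent.LSP
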